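import Pool.Agent.Zk29.Gen.Main
import Pool.Agent.T2H09.LV.MA0

/-!
# Closest returns of the critical value and nearby superattracting parameters
-/

set_option autoImplicit false
open Set Filter Topology Metric MeasureTheory Polynomial Finset
open scoped ENNReal

namespace Pool.Agent.Zk29

open Pool.Agent.W746.LD Pool.Agent.T2H09.DH Pool.Agent.T2H09.LU Pool.Agent.T2H09.LV N62a1eb23

variable {n : ℕ} {c : ℂ}

lemma QQ_qd (n : ℕ) (c : ℂ) (J : ℕ) (w : ℂ) :
    QQ J (fun j => orb n c c j) (fun j => (P n c c j)⁻¹) w = qd n c J w := rfl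

/-- The error term along the critical orbit. -/
lemma Er_er {J : ℕ} (w : ℂ) :
    Er n c J (fun j => orb n c c j) (fun j => (P n c c j)⁻¹) w = er n c J w := by
  have h4 : ∑ j ∈ range J, (P n c c (j + 1))⁻¹ / (w - orb n c c (j + 1)) =
      qd n c J w + (P n c c J)⁻¹ / (w - orb n c c J) - 1 / (w - c) := by
    have h5 := Finset.sum_range_succ' (fun j => (P n c c j)⁻¹ / (w - orb n c c j)) J
    have h6 := Finset.sum_range_succ (fun j => (P n c c j)⁻¹ / (w - orb n c c j)) J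
    rw [h5, P_zero, inv_one, orb_zero] at h6
    unfold qd
    rw [← h6]
    ring
  have h7 : ∑ j ∈ range J, (P n c c (j + 1))⁻¹ / (w - c) = (S n c c (J + 1) - 1) / (w - c) := by
    rw [← Finset.sum_div]
    congr 1
    unfold S
    rw [Finset.sum_range_succ', P_zero, inv_one]
    ring
  unfold Er
  rw [QQ_qd]
  have h8 : ∀ j ∈ range J, (P n c c j)⁻¹ * ((n * orb n c c j ^ (n - 1))⁻¹ *
      (1 / (w - (orb n c c j ^ n + c)) - 1 / (w - c))) =
      (P n c c (j + 1))⁻¹ / (w - orb n c c (j + 1)) - (P n c c (j + 1))⁻¹ / (w - c) := by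
    intro j _
    rw [P_succ, mul_inv, orb_succ]
    ring
  rw [Finset.sum_congr rfl h8, Finset.sum_sub_distrib, h4, h7]
  unfold er
  ring

/-- **Closest returns.** -/
theorem closing (hn : 2 ≤ n) : ∃ A : ℝ, 1 ≤ A ∧ ∀ c ∈ multibrotSet n, ∀ J M : ℕ, 1 ≤ J → 1 ≤ M →
    ∀ y : ℂ, 3 ≤ ‖orb n c y M‖ → ∀ δ : ℝ, 0 < δ → δ ≤ 1 →
    (∀ j, 1 ≤ j → j < J → δ ≤ ‖orb n c c j - c‖) →
    ∀ W : ℝ, W = 1 + Real.log (∑ j ∈ range J, ‖P n c c j‖⁻¹) →
    A * W ^ A * ‖y - c‖ ≤ δ →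
    ∃ c' : ℂ, Pool.Agent.H548R3.MB.Centre n (J + 2) c' ∧
      ‖c' - c‖ * (‖P n c c J‖ * δ) ≤ A * W ^ A * (M : ℝ) ^ 2 *
        min 1 (‖orb n c c J - c‖ * (5 - Real.log ‖orb n c c J - c‖)) := by
  obtain ⟨E, hE1, hmassE⟩ := er_massV hn
  obtain ⟨A0, hA01, hA0⟩ := mass_ge hn
  have hE0 : 0 < E := by linarith
  refine ⟨2 * E * A0, by nlinarith, ?_⟩
  intro c hc J M hJ hM y hy δ hδ hδ1 hdeep W hW hyc
  obtain ⟨A, hA⟩ : ∃ A, A = 2 * E * A0 := ⟨_, rfl⟩
  rw [← hA] at hyc ⊢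
  have hAA0 : A0 ≤ A := by rw [hA]; nlinarith
  have hA1 : 1 ≤ A := by linarith
  have hM1 : (1 : ℝ) ≤ M := by exact_mod_cast hM
  have hc2 := norm_le_two hn hc
  have hΛ1 : 1 ≤ ∑ j ∈ range J, ‖P n c c j‖⁻¹ := by
    calc (1 : ℝ) = ‖P n c c 0‖⁻¹ := by rw [P_zero, norm_one, inv_one]
      _ ≤ _ := Finset.single_le_sum (f := fun j => ‖P n c c j‖⁻¹)
        (fun j _ => by positivity) (Finset.mem_range.mpr (by omega))
  have hW1 : 1 ≤ W := by
    rw [hW]
    have := Real.log_nonneg hΛ1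
    linarith
  have hWA0 : 1 ≤ W ^ A := Real.one_le_rpow hW1 (by linarith)
  obtain ⟨ρ, hρd⟩ : ∃ ρ, ρ = ‖orb n c c J - c‖ := ⟨_, rfl⟩
  rw [← hρd]
  have hρ0 : 0 ≤ ρ := by rw [hρd]; exact norm_nonneg _
  have hρ4 : ρ ≤ 4 := by rw [hρd]; exact rho4 hn hc J
  have hlog4 : Real.log 4 ≤ 2 := by
    rw [show (4 : ℝ) = 2 ^ 2 by norm_num, Real.log_pow]
    have := Real.log_le_sub_one_of_pos (show (0 : ℝ) < 2 by norm_num)
    push_cast
    linarith
  have hlogρ : Real.log ρ ≤ 2 := by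
    rcases hρ0.eq_or_lt with h | h
    · rw [← h, Real.log_zero]; norm_num
    · exact (Real.log_le_log h hρ4).trans hlog4
  have hmin0 : 0 ≤ min 1 (ρ * (5 - Real.log ρ)) :=
    le_min zero_le_one (mul_nonneg hρ0 (by linarith))
  have hRHS0 : 0 ≤ A * W ^ A * (M : ℝ) ^ 2 * min 1 (ρ * (5 - Real.log ρ)) := by positivity
  -- the degenerate cases
  by_cases h0 : ∃ j < J, orb n c c j = 0
  · obtain ⟨j, hj, h0⟩ := h0
    refine ⟨c, ⟨j + 1, by omega, by omega, ?_⟩, ?_⟩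
    · have h1 := P_eq_orb hn j c
      rw [h0] at h1
      exact h1
    · rw [sub_self, norm_zero, zero_mul]
      exact hRHS0
  push Not at h0
  have hP0 : 0 < ‖P n c c J‖ := norm_pos_iff.mpr (P_ne_zero hn fun i hi => h0 i hi)
  by_contra hcon
  push Not at hcon
  obtain ⟨X, hX⟩ : ∃ X, X = ‖P n c c J‖ * δ := ⟨_, rfl⟩
  obtain ⟨Y, hY⟩ : ∃ Y, Y = A * W ^ A * (M : ℝ) ^ 2 * min 1 (ρ * (5 - Real.log ρ)) := ⟨_, rfl⟩
  rw [← hX, ← hY] at hcon
  rw [← hY] at hRHS0
  have hX0 : 0 < X := by rw [hX]; positivity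
  have hρpos : 0 < ρ := by
    rw [hρd]
    obtain ⟨i, rfl⟩ : ∃ i, J = i + 1 := ⟨J - 1, by omega⟩
    rw [norm_orb_succ_sub]
    exact pow_pos (norm_pos_iff.mpr (h0 i (by omega))) _
  have hminpos : 0 < min 1 (ρ * (5 - Real.log ρ)) :=
    lt_min one_pos (mul_pos hρpos (by linarith))
  have hY0 : 0 < Y := by rw [hY]; positivity
  -- the mass estimate
  have key : ∀ r : ℝ, 0 < r → r ≤ 1 →
      (∀ t ∈ ball c r, ¬ Pool.Agent.H548R3.MB.Centre n (J + 2) t) → 2 * (r * X) ≤ Y := by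
    intro r hr hr1 hno
    have hmass := hmassE c hc J r hr hr1 hno J hJ le_rfl
    obtain ⟨J', rfl⟩ : ∃ J', J = J' + 1 := ⟨J - 1, by omega⟩
    have hep : 0 < ep n c (E / r) (J' + 1) := ep_pos hn hc h0 hJ le_rfl (by positivity)
    have h1 := hA0 c hc J' (fun j => orb n c c j) (fun j => (P n c c j)⁻¹) h0
      (fun j _ k => by
        rw [← orb_add]
        exact mem_multibrot_orb hn hc _) (by simp) W hW1 (by
        have h2 : 1 + ∑ j ∈ range J', ‖(P n c c (j + 1))⁻¹‖ =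
            ∑ j ∈ range (J' + 1), ‖P n c c j‖⁻¹ := by
          rw [Finset.sum_range_succ', P_zero, norm_one, inv_one, add_comm]
          simp only [norm_inv]
        rw [h2, hW, Real.exp_add, Real.exp_log (by linarith)]
        have := Real.one_le_exp (show (0 : ℝ) ≤ 1 by norm_num)
        nlinarith) (ep n c (E / r) (J' + 1)) hep (by
        refine le_trans (le_of_eq ?_) hmass
        refine lintegral_congr fun w => ?_
        rw [Er_er]) δ hδ hδ1 (fun j hj => by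
        simp only [orb_zero]
        exact hdeep (j + 1) (by omega) (by omega)) M hM (by
        simp only [orb_zero]
        refine le_trans ?_ hyc
        have h3 : W ^ A0 ≤ W ^ A := Real.rpow_le_rpow_of_exponent_le hW1 hAA0
        have h4 := dx_le (x := c) hy
        have h5 := (dx_pos hn hc (mem_multibrot_orb hn hc) M).le
        gcongr)
    unfold ep at h1
    rw [← hρd] at h1
    have h2 : r * X ≤ (E * A0) * W ^ A0 * (M : ℝ) ^ 2 * min 1 (ρ * (5 - Real.log ρ)) := by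
      rw [hX]
      calc r * (‖P n c c (J' + 1)‖ * δ) ≤ r * (‖P n c c (J' + 1)‖ * (A0 * W ^ A0 * (M : ℝ) ^ 2 *
            (E / r * ‖(P n c c (J' + 1))⁻¹‖ * min 1 (ρ * (5 - Real.log ρ))))) := by gcongr
        _ = _ := by
            rw [norm_inv]
            field_simp
    have h3 : (E * A0) * W ^ A0 * (M : ℝ) ^ 2 * min 1 (ρ * (5 - Real.log ρ)) ≤
        (E * A0) * W ^ A * (M : ℝ) ^ 2 * min 1 (ρ * (5 - Real.log ρ)) := by
      have h4 : W ^ A0 ≤ W ^ A := Real.rpow_le_rpow_of_exponent_le hW1 hAA0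
      gcongr
    rw [hY, hA] at *
    nlinarith
  -- conclusion
  by_cases hYX : Y / X ≤ 1
  · have h1 := key (Y / X) (by positivity) hYX (by
      intro t ht hct
      have h2 := hcon t hct
      rw [mem_ball, dist_eq_norm, lt_div_iff₀ hX0] at ht
      linarith)
    rw [div_mul_cancel₀ _ hX0.ne'] at h1
    linarith
  · push Not at hYX
    have h1 := key 1 one_pos le_rfl (by
      intro t ht hct
      have h2 := hcon t hct
      rw [mem_ball, dist_eq_norm] at ht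
      rw [lt_div_iff₀ hX0] at hYX
      nlinarith)
    have h2 : Pool.Agent.H548R3.MB.Centre n (J + 2) 0 := by
      refine ⟨1, le_rfl, by omega, ?_⟩
      exact Pool.Agent.H712R2.P_one hn 0
    have h3 := hcon 0 h2
    rw [zero_sub, norm_neg] at h3
    nlinarith

end Pool.Agent.Zk29
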