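import Pool.Agent.Zk29.Gen.PerClose

/-!
# Critical orbits that come close to a repelling cycle
-/

set_option autoImplicit false
open Set Filter Topology Metric MeasureTheory Finset
open scoped ENNReal

namespace Pool.Agent.Zk29

open Pool.Agent.W746.LD Pool.Agent.T2H09.DH Pool.Agent.T2H09.LU N62a1eb23

variable {n : ℕ} {c b : ℂ} {N l : ℕ}

/-- One term of the error. -/
noncomputable def tau (n : ℕ) (c w x : ℂ) : ℂ :=
  (n * x ^ (n - 1))⁻¹ * (1 / (w - (x ^ n + c)) - 1 / (w - c)) - 1 / (w - x)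

lemma Er_tau (J : ℕ) (a α : ℕ → ℂ) (w : ℂ) :
    Er n c J a α w = ∑ j ∈ range J, α j * tau n c w (a j) := by
  unfold Er QQ tau
  rw [← Finset.sum_sub_distrib]
  refine Finset.sum_congr rfl fun j _ => ?_
  ring

/-- The poles. -/
noncomputable def pa (n : ℕ) (c b : ℂ) (l j : ℕ) : ℂ :=
  if j < l then orb n c c j else orb n c b (j - l)

/-- The weights. -/
noncomputable def pw (n : ℕ) (c b κ : ℂ) (l j : ℕ) : ℂ :=
  if j < l then (P n c c j)⁻¹ else κ * (P n c b (j - l))⁻¹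

lemma Er_pre (hb : orb n c b N = b) (κ w : ℂ) :
    Er n c (l + N) (pa n c b l) (pw n c b κ l) w = er n c l w +
      κ * ((1 - (P n c b N)⁻¹) * (1 / (w - c) - 1 / (w - b)) +
        (VV n c b N - (1 - (P n c b N)⁻¹)) / (w - c)) := by
  rw [Er_tau, Finset.sum_range_add, ← Er_er, ← Er_per hb, Er_tau, Er_tau, Finset.mul_sum]
  congr 1
  · refine Finset.sum_congr rfl fun j hj => ?_
    rw [Finset.mem_range] at hj
    unfold pa pw
    rw [if_pos hj, if_pos hj]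
  · refine Finset.sum_congr rfl fun j _ => ?_
    unfold pa pw
    rw [if_neg (by omega), if_neg (by omega), Nat.add_sub_cancel_left]
    ring

/-- The mass of a combination of three poles. -/
lemma three_mass {x z q u v : ℂ} (hx : ‖x‖ ≤ 2) (hz : ‖z‖ ≤ 2) (hq : ‖q‖ ≤ 2) :
    ∫⁻ w in closedBall (0 : ℂ) 3, ‖u * (1 / (w - x) - 1 / (w - z)) + v / (w - q)‖ₑ ≤
      ENNReal.ofReal (‖u‖ * (2 * Real.pi * (‖x - z‖ * (5 - Real.log ‖x - z‖))) +
        2 * Real.pi * 6 * ‖v‖) := by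
  have h1 : ∫⁻ w in closedBall (0 : ℂ) 3, ‖1 / (w - x) - 1 / (w - z)‖ₑ ≤
      ENNReal.ofReal (2 * Real.pi * (‖x - z‖ * (5 - Real.log ‖x - z‖))) := by
    by_cases hxz : x = z
    · rw [hxz]
      simp
    · have hρ : 0 < ‖x - z‖ := norm_pos_iff.mpr (sub_ne_zero.mpr hxz)
      refine (two_poles hx hz hxz).trans (ENNReal.ofReal_le_ofReal ?_)
      have := log12 hρ
      have := Real.pi_pos
      gcongr
  have h2 : 0 ≤ ‖x - z‖ * (5 - Real.log ‖x - z‖) := by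
    have hρ4 : ‖x - z‖ ≤ 4 := (norm_sub_le _ _).trans (by linarith)
    rcases (norm_nonneg (x - z)).eq_or_lt with h | h
    · rw [← h]; simp
    · have hlog4 : Real.log 4 ≤ 2 := by
        rw [show (4 : ℝ) = 2 ^ 2 by norm_num, Real.log_pow]
        have := Real.log_le_sub_one_of_pos (show (0 : ℝ) < 2 by norm_num)
        push_cast
        linarith
      have := Real.log_le_log h hρ4
      exact mul_nonneg h.le (by linarith)
  have hπ := Real.pi_pos
  calc ∫⁻ w in closedBall (0 : ℂ) 3, ‖u * (1 / (w - x) - 1 / (w - z)) + v / (w - q)‖ₑ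
      ≤ ∫⁻ w in closedBall (0 : ℂ) 3,
          (‖u‖ₑ * ‖1 / (w - x) - 1 / (w - z)‖ₑ + ‖v / (w - q)‖ₑ) := by
        apply lintegral_mono
        intro w
        simp only
        rw [← enorm_mul]
        exact enorm_add_le _ _
    _ = (∫⁻ w in closedBall (0 : ℂ) 3, ‖u‖ₑ * ‖1 / (w - x) - 1 / (w - z)‖ₑ) +
        ∫⁻ w in closedBall (0 : ℂ) 3, ‖v / (w - q)‖ₑ := by
        apply lintegral_add_right
        exact (measurable_const.div (measurable_id.sub_const _)).enorm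
    _ = ‖u‖ₑ * (∫⁻ w in closedBall (0 : ℂ) 3, ‖1 / (w - x) - 1 / (w - z)‖ₑ) +
        ∫⁻ w in closedBall (0 : ℂ) 3, ‖v / (w - q)‖ₑ := by
        rw [lintegral_const_mul' _ _ enorm_ne_top]
    _ ≤ ‖u‖ₑ * ENNReal.ofReal (2 * Real.pi * (‖x - z‖ * (5 - Real.log ‖x - z‖))) +
        ENNReal.ofReal (2 * Real.pi * 6 * ‖v‖) := by
        gcongr
        exact int_term_le _ _ (by linarith)
    _ = _ := by
        rw [← ofReal_norm, ← ENNReal.ofReal_mul (norm_nonneg _),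
          ← ENNReal.ofReal_add (by positivity) (by positivity)]

/-- **Critical orbits close to a repelling cycle.** -/
theorem closing_pre (hn : 2 ≤ n) : ∃ A : ℝ, 1 ≤ A ∧ ∀ c ∈ multibrotSet n, ∀ l N M : ℕ, 1 ≤ l →
    1 ≤ N → 1 ≤ M → ∀ b : ℂ, orb n c b N = b → 1 < ‖P n c b N‖ →
    ∀ y : ℂ, 3 ≤ ‖orb n c y M‖ → ∀ δ : ℝ, 0 < δ → δ ≤ 1 →
    (∀ j, 1 ≤ j → j < l → δ ≤ ‖orb n c c j - c‖) → (∀ i < N, δ ≤ ‖orb n c b i - c‖) →
    ∀ W : ℝ, W = 1 + Real.log ((∑ j ∈ range l, ‖P n c c j‖⁻¹) +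
      (‖P n c c l‖ * ‖1 - (P n c b N)⁻¹‖)⁻¹ * ∑ i ∈ range N, ‖P n c b i‖⁻¹) →
    A * W ^ A * ‖y - c‖ ≤ δ →
    infDist c (Hy n) * (‖P n c c l‖ * δ) ≤ A * W ^ A * (M : ℝ) ^ 2 *
        (‖orb n c c l - b‖ * (5 - Real.log ‖orb n c c l - b‖)) := by
  obtain ⟨A0, hA01, hA0⟩ := mass_ge hn
  obtain ⟨B, hB⟩ : ∃ B : ℝ, B = 3 ^ n + 4 := ⟨_, rfl⟩
  have hB1 : 1 ≤ B := by
    rw [hB]
    have : (0 : ℝ) ≤ 3 ^ n := by positivity
    linarith
  have hlB : 0 ≤ Real.log (2 * B) := Real.log_nonneg (by linarith)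
  obtain ⟨K1, hK1⟩ : ∃ K1, K1 = 1 + Real.log (2 * B) / 3 := ⟨_, rfl⟩
  have hK10 : 1 ≤ K1 := by
    rw [hK1]
    have : 0 ≤ Real.log (2 * B) / 3 := by positivity
    linarith
  have hπ := Real.pi_pos
  have hπ3 := Real.pi_gt_three
  obtain ⟨E, hE⟩ : ∃ E, E = 24 * Real.pi * (1 + K1) := ⟨_, rfl⟩
  have hE1 : 1 ≤ E := by rw [hE]; nlinarith
  have hE0 : 0 < E := by linarith
  refine ⟨E * A0, by nlinarith, ?_⟩
  intro c hc l N M hl hN hM b hb hρ y hy δ hδ hδ1 hdeep hdeep' W hW hyb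
  obtain ⟨A, hA⟩ : ∃ A, A = E * A0 := ⟨_, rfl⟩
  rw [← hA] at hyb ⊢
  have hAA0 : A0 ≤ A := by rw [hA]; nlinarith
  have hA1 : 1 ≤ A := by linarith
  have hc2 := norm_le_two hn hc
  have hob := mem_multibrot_orb hn hc
  have hb2 := per_bdd hn hc2 hN hb
  have hb20 : ‖b‖ ≤ 2 := by simpa using hb2 0
  have hP0 : P n c b N ≠ 0 := by
    rw [← norm_pos_iff]; linarith
  have h0 : ∀ j < N, orb n c b j ≠ 0 := fun j hj => orb_ne_zero_of_P hn hP0 hj
  have hΛ1 : 1 ≤ ∑ j ∈ range l, ‖P n c c j‖⁻¹ := by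
    calc (1 : ℝ) = ‖P n c c 0‖⁻¹ := by rw [P_zero, norm_one, inv_one]
      _ ≤ _ := Finset.single_le_sum (f := fun j => ‖P n c c j‖⁻¹)
        (fun j _ => by positivity) (Finset.mem_range.mpr (by omega))
  obtain ⟨Λ, hΛ⟩ : ∃ Λ, Λ = (∑ j ∈ range l, ‖P n c c j‖⁻¹) +
      (‖P n c c l‖ * ‖1 - (P n c b N)⁻¹‖)⁻¹ * ∑ i ∈ range N, ‖P n c b i‖⁻¹ := ⟨_, rfl⟩
  rw [← hΛ] at hW
  have hΛ2 : 1 ≤ Λ := by
    have : 0 ≤ (‖P n c c l‖ * ‖1 - (P n c b N)⁻¹‖)⁻¹ * ∑ i ∈ range N, ‖P n c b i‖⁻¹ := by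
      positivity
    linarith
  have hW1 : 1 ≤ W := by
    rw [hW]
    have := Real.log_nonneg hΛ2
    linarith
  have hWA0 : 1 ≤ W ^ A := Real.one_le_rpow hW1 (by linarith)
  obtain ⟨d, hd⟩ : ∃ d, d = ‖orb n c c l - b‖ := ⟨_, rfl⟩
  have hd0 : 0 ≤ d := by rw [hd]; exact norm_nonneg _
  have hd4 : d ≤ 4 := by
    rw [hd]
    refine (norm_sub_le _ _).trans ?_
    linarith [hob l]
  have hlog4 : Real.log 4 ≤ 2 := by
    rw [show (4 : ℝ) = 2 ^ 2 by norm_num, Real.log_pow]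
    have := Real.log_le_sub_one_of_pos (show (0 : ℝ) < 2 by norm_num)
    push_cast
    linarith
  have hlogd : Real.log d ≤ 2 := by
    rcases hd0.eq_or_lt with h | h
    · rw [← h, Real.log_zero]; norm_num
    · exact (Real.log_le_log h hd4).trans hlog4
  rw [← hd]
  obtain ⟨g, hg⟩ : ∃ g, g = d * (5 - Real.log d) := ⟨_, rfl⟩
  have hg0 : 0 ≤ g := by rw [hg]; exact mul_nonneg hd0 (by linarith)
  rw [← hg]
  rcases (infDist_nonneg (x := c) (s := Hy n)).eq_or_lt with hr0 | hr0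
  · rw [← hr0, zero_mul]
    positivity
  obtain ⟨hz0, -⟩ := far hn hc hr0
  obtain ⟨r, hr⟩ : ∃ r, r = infDist c (Hy n) := ⟨_, rfl⟩
  have hball := ball_orb hn hc hr0
  rw [← hr] at hr0 hball ⊢
  have hr2 : r ≤ 2 := by rw [hr]; exact infDist_le_two hn hc
  obtain ⟨-, sp2⟩ := per_speed hn hc hr0 hball hN hb hρ
  rw [← hB] at sp2
  have sp3 := sp2 l
  rw [norm_sub_rev b, ← hd] at sp3
  obtain ⟨F, hF⟩ : ∃ F, F = VV n c b N := ⟨_, rfl⟩
  obtain ⟨u, hu⟩ : ∃ u, u = 1 - (P n c b N)⁻¹ := ⟨_, rfl⟩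
  rw [← hF, ← hu] at sp3
  rw [← hu] at hΛ
  have hu0 : 0 < ‖u‖ := by
    rw [norm_pos_iff, hu, sub_ne_zero]
    intro h1
    have h2 : ‖(P n c b N)⁻¹‖ = 1 := by rw [← h1, norm_one]
    rw [norm_inv, inv_eq_one] at h2
    linarith
  have hu0' : u ≠ 0 := norm_pos_iff.mp hu0
  have hPl : P n c c l ≠ 0 := P_ne_zero hn fun i _ => hz0 i
  have hPl' : 0 < ‖P n c c l‖ := norm_pos_iff.mpr hPl
  obtain ⟨κ, hκ⟩ : ∃ κ, κ = (P n c c l)⁻¹ / u := ⟨_, rfl⟩
  have hD : TH363.QI.D n c l = P n c c l * S n c c (l + 1) := D_eq' l hPl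
  obtain ⟨ε, hε⟩ : ∃ ε, ε = E / r * ‖P n c c l‖⁻¹ * g := ⟨_, rfl⟩
  have hε0 : 0 ≤ ε := by rw [hε]; positivity
  have hmass : ∫⁻ w in closedBall (0 : ℂ) 3, ‖Er n c (l + N) (pa n c b l)
      (pw n c b κ l) w‖ₑ ≤ ENNReal.ofReal ε := by
    have h1 := three_mass (x := orb n c c l) (z := b) (q := c) (u := (P n c c l)⁻¹)
      (v := κ * (F - u * TH363.QI.D n c l)) (hob l) hb20 hc2
    refine le_trans (le_of_eq (lintegral_congr fun w => ?_)) (h1.trans
      (ENNReal.ofReal_le_ofReal ?_))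
    · rw [Er_pre hb, ← hF, ← hu, hD, hκ]
      congr 1
      unfold er
      field_simp
      ring
    · rw [← hd, ← hg, norm_mul, hκ, norm_div, norm_inv]
      have h2 : ‖F - u * TH363.QI.D n c l‖ ≤ ‖u‖ * (2 * K1 * g) / r := by
        rw [le_div_iff₀ hr0]
        calc ‖F - u * TH363.QI.D n c l‖ * r = r * ‖F - u * TH363.QI.D n c l‖ := mul_comm _ _
          _ ≤ ‖u‖ * gm B d := sp3
          _ ≤ _ := by
              rw [hK1, hg]
              gcongr
              exact gm_le hB1 hd0 hd4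
      have h4 : 1 ≤ 2 / r := by rw [le_div_iff₀ hr0]; linarith
      rw [hε, hE]
      calc ‖P n c c l‖⁻¹ * (2 * Real.pi * g) +
            2 * Real.pi * 6 * (‖P n c c l‖⁻¹ / ‖u‖ * ‖F - u * TH363.QI.D n c l‖)
          ≤ ‖P n c c l‖⁻¹ * (2 * Real.pi * g) +
            2 * Real.pi * 6 * (‖P n c c l‖⁻¹ / ‖u‖ * (‖u‖ * (2 * K1 * g) / r)) := by gcongr
        _ = 2 * Real.pi * 1 * (‖P n c c l‖⁻¹ * g) +
            24 * Real.pi * K1 / r * (‖P n c c l‖⁻¹ * g) := by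
            field_simp
            ring
        _ ≤ 2 * Real.pi * (2 / r) * (‖P n c c l‖⁻¹ * g) +
            24 * Real.pi * K1 / r * (‖P n c c l‖⁻¹ * g) := by gcongr
        _ = Real.pi * (4 + 24 * K1) / r * (‖P n c c l‖⁻¹ * g) := by ring
        _ ≤ Real.pi * (24 * (1 + K1)) / r * (‖P n c c l‖⁻¹ * g) := by
            have h5 : Real.pi * (4 + 24 * K1) ≤ Real.pi * (24 * (1 + K1)) := by nlinarith
            gcongr
        _ = _ := by ring
  obtain ⟨l', rfl⟩ : ∃ l', l = l' + 1 := ⟨l - 1, by omega⟩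
  have hJ : l' + 1 + N = (l' + N) + 1 := by ring
  have hpa0 : pa n c b (l' + 1) 0 = c := by
    unfold pa
    rw [if_pos (by omega), orb_zero]
  have key : ∀ η : ℝ, 0 < η → δ ≤ A0 * W ^ A0 * (M : ℝ) ^ 2 * (ε + η) := by
    intro η hη
    refine hA0 c hc (l' + N) (pa n c b (l' + 1)) (pw n c b κ (l' + 1)) ?_ ?_ ?_ W hW1 ?_ (ε + η)
      (by linarith) ?_ δ hδ hδ1 ?_ M hM ?_
    · intro j hj
      unfold pa
      split_ifs with h
      · exact hz0 j
      · exact h0 _ (by omega)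
    · intro j hj k
      unfold pa
      split_ifs with h
      · rw [← orb_add]; exact hob _
      · rw [← orb_add]; exact hb2 _
    · unfold pw
      rw [if_pos (by omega), P_zero, inv_one]
    · have h2 : 1 + ∑ j ∈ range (l' + N), ‖pw n c b κ (l' + 1) (j + 1)‖ =
          ∑ j ∈ range (l' + N + 1), ‖pw n c b κ (l' + 1) j‖ := by
        rw [Finset.sum_range_succ' _ (l' + N)]
        have : ‖pw n c b κ (l' + 1) 0‖ = 1 := by
          unfold pw
          rw [if_pos (by omega), P_zero, inv_one, norm_one]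
        rw [this, add_comm]
      have h3 : ∑ j ∈ range (l' + N + 1), ‖pw n c b κ (l' + 1) j‖ = Λ := by
        rw [← hJ, Finset.sum_range_add, hΛ]
        congr 1
        · refine Finset.sum_congr rfl fun j hj => ?_
          rw [Finset.mem_range] at hj
          unfold pw
          rw [if_pos hj, norm_inv]
        · rw [Finset.mul_sum]
          refine Finset.sum_congr rfl fun j _ => ?_
          unfold pw
          rw [if_neg (by omega), Nat.add_sub_cancel_left, norm_mul, norm_inv, hκ, norm_div,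
            norm_inv, mul_inv, div_eq_mul_inv]
      rw [h2, h3, hW, Real.exp_add, Real.exp_log (by linarith)]
      have := Real.one_le_exp (show (0 : ℝ) ≤ 1 by norm_num)
      nlinarith
    · rw [← hJ]
      refine hmass.trans (ENNReal.ofReal_le_ofReal (by linarith))
    · intro j hj
      rw [hpa0]
      unfold pa
      split_ifs with h
      · exact hdeep (j + 1) (by omega) (by omega)
      · exact hdeep' _ (by omega)
    · rw [hpa0]
      refine le_trans ?_ hyb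
      have h3 : W ^ A0 ≤ W ^ A := Real.rpow_le_rpow_of_exponent_le hW1 hAA0
      have h4 := dx_le (x := c) hy
      have h5 := (dx_pos hn hc hob M).le
      gcongr
  have hM1 : (1 : ℝ) ≤ M := by exact_mod_cast hM
  have hC0 : 0 < A0 * W ^ A0 * (M : ℝ) ^ 2 := by positivity
  have key2 : δ ≤ A0 * W ^ A0 * (M : ℝ) ^ 2 * ε := by
    apply le_of_forall_pos_le_add
    intro e he
    have h1 := key (e / (A0 * W ^ A0 * (M : ℝ) ^ 2)) (by positivity)
    rw [mul_add, mul_div_cancel₀ _ hC0.ne'] at h1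
    exact h1
  have h3 : W ^ A0 ≤ W ^ A := Real.rpow_le_rpow_of_exponent_le hW1 hAA0
  calc r * (‖P n c c (l' + 1)‖ * δ) ≤
        r * (‖P n c c (l' + 1)‖ * (A0 * W ^ A0 * (M : ℝ) ^ 2 * ε)) := by gcongr
    _ = E * A0 * W ^ A0 * (M : ℝ) ^ 2 * g := by
        rw [hε]
        field_simp
    _ ≤ E * A0 * W ^ A * (M : ℝ) ^ 2 * g := by gcongr
    _ = _ := by rw [hA]

end Pool.Agent.Zk29
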