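import Pool.Agent.Zk29.Gen.PreClose

/-!
# Near collisions of points of the critical orbit
-/

set_option autoImplicit false
open Set Filter Topology Metric MeasureTheory Finset
open scoped ENNReal

namespace Pool.Agent.Zk29

open Pool.Agent.W746.LD Pool.Agent.T2H09.DH Pool.Agent.T2H09.LU Pool.Agent.T2H09.LV N62a1eb23

variable {n : ℕ} {c : ℂ}

/-- The weights. -/
noncomputable def cw (n : ℕ) (c κ : ℂ) (i j : ℕ) : ℂ :=
  if j < i then (P n c c j)⁻¹ else κ * (P n c c j)⁻¹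

lemma Er_split {i J : ℕ} (hi : i ≤ J) (κ w : ℂ) :
    Er n c J (fun j => orb n c c j) (cw n c κ i) w =
      (1 - κ) * er n c i w + κ * er n c J w := by
  obtain ⟨m, rfl⟩ := Nat.exists_eq_add_of_le hi
  rw [← Er_er, ← Er_er, Er_tau, Er_tau, Er_tau, Finset.sum_range_add, Finset.sum_range_add]
  have h1 : ∑ j ∈ range i, cw n c κ i j * tau n c w (orb n c c j) =
      ∑ j ∈ range i, (P n c c j)⁻¹ * tau n c w (orb n c c j) := by
    refine Finset.sum_congr rfl fun j hj => ?_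
    rw [Finset.mem_range] at hj
    unfold cw
    rw [if_pos hj]
  have h2 : ∑ j ∈ range m, cw n c κ i (i + j) * tau n c w (orb n c c (i + j)) =
      κ * ∑ j ∈ range m, (P n c c (i + j))⁻¹ * tau n c w (orb n c c (i + j)) := by
    rw [Finset.mul_sum]
    refine Finset.sum_congr rfl fun j _ => ?_
    unfold cw
    rw [if_neg (by omega), mul_assoc]
  rw [h1, h2]
  ring

lemma Er_coll {i J : ℕ} (hi : i ≤ J) (hPi : P n c c i ≠ 0) (hPJ : P n c c J ≠ 0)
    (hne : P n c c J - P n c c i ≠ 0) (w : ℂ) :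
    Er n c J (fun j => orb n c c j) (cw n c (P n c c J / (P n c c J - P n c c i)) i) w =
      (P n c c J - P n c c i)⁻¹ * (1 / (w - orb n c c J) - 1 / (w - orb n c c i)) +
        (-((P n c c J - P n c c i)⁻¹ * (TH363.QI.D n c J - TH363.QI.D n c i))) / (w - c) := by
  rw [Er_split hi, D_eq' J hPJ, D_eq' i hPi]
  unfold er
  obtain ⟨p, hp⟩ : ∃ p, p = P n c c J := ⟨_, rfl⟩
  obtain ⟨q, hq⟩ : ∃ q, q = P n c c i := ⟨_, rfl⟩
  rw [← hp] at hne hPJ ⊢
  rw [← hq] at hne hPi ⊢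
  obtain ⟨a, ha⟩ : ∃ a, a = 1 / (w - orb n c c J) := ⟨_, rfl⟩
  obtain ⟨b, hb⟩ : ∃ b, b = 1 / (w - orb n c c i) := ⟨_, rfl⟩
  obtain ⟨e, he⟩ : ∃ e, e = 1 / (w - c) := ⟨_, rfl⟩
  have e1 : ∀ x : ℂ, x / (w - orb n c c J) = x * a := fun x => by rw [ha]; ring
  have e2 : ∀ x : ℂ, x / (w - orb n c c i) = x * b := fun x => by rw [hb]; ring
  have e3 : ∀ x : ℂ, x / (w - c) = x * e := fun x => by rw [he]; ring
  rw [e1, e2, e3, e3, e3, ← ha, ← hb]
  field_simp
  ring

/-- **Near collisions.** -/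
theorem closing_coll (hn : 2 ≤ n) : ∃ A : ℝ, 1 ≤ A ∧ ∀ c ∈ multibrotSet n, ∀ i J M : ℕ, 1 ≤ i →
    i < J → 1 ≤ M → ∀ y : ℂ, 3 ≤ ‖orb n c y M‖ → ∀ δ : ℝ, 0 < δ → δ ≤ 1 →
    (∀ j, 1 ≤ j → j < J → δ ≤ ‖orb n c c j - c‖) →
    ∀ W : ℝ, W = 1 + Real.log ((∑ j ∈ range i, ‖P n c c j‖⁻¹) +
      ‖1 - P n c c i / P n c c J‖⁻¹ * ∑ j ∈ Finset.Ico i J, ‖P n c c j‖⁻¹) →
    A * W ^ A * ‖y - c‖ ≤ δ →
    ∃ c' : ℂ, (Pool.Agent.H548R3.MB.Centre n (J + 2) c' ∨ orb n c' c' J = orb n c' c' i) ∧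
      ‖c' - c‖ * (‖P n c c J - P n c c i‖ * δ) ≤ A * W ^ A * (M : ℝ) ^ 2 *
        (‖orb n c c J - orb n c c i‖ * (5 - Real.log ‖orb n c c J - orb n c c i‖)) := by
  obtain ⟨A0, hA01, hA0⟩ := mass_ge hn
  obtain ⟨B, hB⟩ : ∃ B, B = Pool.Agent.H548R3.MB.MM n 1 + 2 := ⟨_, rfl⟩
  have hMM := Pool.Agent.H548R3.MB.one_le_MM n 1
  have hB1 : 1 ≤ B := by linarith
  have hB0 : 0 < B := by linarith
  have hlB : 0 ≤ Real.log (2 * B) := Real.log_nonneg (by linarith)
  obtain ⟨K1, hK1⟩ : ∃ K1, K1 = 1 + Real.log (2 * B) / 3 := ⟨_, rfl⟩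
  have hK10 : 1 ≤ K1 := by
    rw [hK1]
    have : 0 ≤ Real.log (2 * B) / 3 := by positivity
    linarith
  have hπ := Real.pi_pos
  have hπ3 := Real.pi_gt_three
  obtain ⟨E, hE⟩ : ∃ E, E = 2 * Real.pi * (1 + 48 * K1) := ⟨_, rfl⟩
  have hE1 : 1 ≤ E := by rw [hE]; nlinarith
  have hE0 : 0 < E := by linarith
  refine ⟨2 * E * A0, by nlinarith, ?_⟩
  intro c hc i J M hi hiJ hM y hy δ hδ hδ1 hdeep W hW hyc
  obtain ⟨A, hA⟩ : ∃ A, A = 2 * E * A0 := ⟨_, rfl⟩
  rw [← hA] at hyc ⊢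
  have hAA0 : A0 ≤ A := by rw [hA]; nlinarith
  have hA1 : 1 ≤ A := by linarith
  have hM1 : (1 : ℝ) ≤ M := by exact_mod_cast hM
  have hc2 := norm_le_two hn hc
  have hob := mem_multibrot_orb hn hc
  have hΛ1 : 1 ≤ ∑ j ∈ range i, ‖P n c c j‖⁻¹ := by
    calc (1 : ℝ) = ‖P n c c 0‖⁻¹ := by rw [P_zero, norm_one, inv_one]
      _ ≤ _ := Finset.single_le_sum (f := fun j => ‖P n c c j‖⁻¹)
        (fun j _ => by positivity) (Finset.mem_range.mpr (by omega))
  obtain ⟨Λ, hΛ⟩ : ∃ Λ, Λ = (∑ j ∈ range i, ‖P n c c j‖⁻¹) +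
      ‖1 - P n c c i / P n c c J‖⁻¹ * ∑ j ∈ Finset.Ico i J, ‖P n c c j‖⁻¹ := ⟨_, rfl⟩
  rw [← hΛ] at hW
  have hΛ2 : 1 ≤ Λ := by
    have : 0 ≤ ‖1 - P n c c i / P n c c J‖⁻¹ * ∑ j ∈ Finset.Ico i J, ‖P n c c j‖⁻¹ := by
      positivity
    linarith
  have hW1 : 1 ≤ W := by
    rw [hW]
    have := Real.log_nonneg hΛ2
    linarith
  have hWA0 : 1 ≤ W ^ A := Real.one_le_rpow hW1 (by linarith)
  obtain ⟨ρ, hρd⟩ : ∃ ρ, ρ = ‖orb n c c J - orb n c c i‖ := ⟨_, rfl⟩
  rw [← hρd]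
  have hρ0 : 0 ≤ ρ := by rw [hρd]; exact norm_nonneg _
  have hρ4 : ρ ≤ 4 := by
    rw [hρd]
    refine (norm_sub_le _ _).trans ?_
    linarith [hob J, hob i]
  have hlog4 : Real.log 4 ≤ 2 := by
    rw [show (4 : ℝ) = 2 ^ 2 by norm_num, Real.log_pow]
    have := Real.log_le_sub_one_of_pos (show (0 : ℝ) < 2 by norm_num)
    push_cast
    linarith
  have hlogρ : Real.log ρ ≤ 2 := by
    rcases hρ0.eq_or_lt with h | h
    · rw [← h, Real.log_zero]; norm_num
    · exact (Real.log_le_log h hρ4).trans hlog4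
  obtain ⟨g, hg⟩ : ∃ g, g = ρ * (5 - Real.log ρ) := ⟨_, rfl⟩
  have hg0 : 0 ≤ g := by rw [hg]; exact mul_nonneg hρ0 (by linarith)
  rw [← hg]
  have hRHS0 : 0 ≤ A * W ^ A * (M : ℝ) ^ 2 * g := by positivity
  -- the degenerate cases
  by_cases h0 : ∃ j < J, orb n c c j = 0
  · obtain ⟨j, hj, h0⟩ := h0
    refine ⟨c, Or.inl ⟨j + 1, by omega, by omega, ?_⟩, ?_⟩
    · have h1 := P_eq_orb hn j c
      rw [h0] at h1
      exact h1
    · rw [sub_self, norm_zero, zero_mul]
      exact hRHS0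
  push Not at h0
  by_cases hcoll : orb n c c J = orb n c c i
  · refine ⟨c, Or.inr hcoll, ?_⟩
    rw [sub_self, norm_zero, zero_mul]
    exact hRHS0
  by_cases hPP : P n c c J - P n c c i = 0
  · refine ⟨0, Or.inl ⟨1, le_rfl, by omega, Pool.Agent.H712R2.P_one hn 0⟩, ?_⟩
    rw [hPP, norm_zero, zero_mul, mul_zero]
    exact hRHS0
  have hPJ : P n c c J ≠ 0 := P_ne_zero hn fun j hj => h0 j hj
  have hPi : P n c c i ≠ 0 := P_ne_zero hn fun j hj => h0 j (by omega)
  have hPP0 : 0 < ‖P n c c J - P n c c i‖ := norm_pos_iff.mpr hPP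
  by_contra hcon
  push Not at hcon
  obtain ⟨X, hX⟩ : ∃ X, X = ‖P n c c J - P n c c i‖ * δ := ⟨_, rfl⟩
  obtain ⟨Y, hY⟩ : ∃ Y, Y = A * W ^ A * (M : ℝ) ^ 2 * g := ⟨_, rfl⟩
  rw [← hX, ← hY] at hcon
  rw [← hY] at hRHS0
  have hX0 : 0 < X := by rw [hX]; positivity
  have hρpos : 0 < ρ := by
    rw [hρd, norm_pos_iff]
    exact sub_ne_zero.mpr hcoll
  have hgpos : 0 < g := by rw [hg]; exact mul_pos hρpos (by linarith)
  have hY0 : 0 < Y := by rw [hY]; positivity
  -- the mass estimate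
  have key : ∀ r : ℝ, 0 < r → r ≤ 1 →
      (∀ t ∈ ball c r, ¬ (Pool.Agent.H548R3.MB.Centre n (J + 2) t ∨
        orb n t t J = orb n t t i)) → 2 * (r * X) ≤ Y := by
    intro r hr hr1 hno
    have hno1 : ∀ t ∈ ball c r, ¬ Pool.Agent.H548R3.MB.Centre n (J + 2) t := fun t ht h =>
      hno t ht (Or.inl h)
    have hbd : ∀ t : ℂ, ‖t - c‖ ≤ r / 4 → ∀ j ≤ J, ‖orb n t t j‖ ≤ B := by
      intro t ht j hj
      have := disc_orb hn hc hr hno1 ht hj
      linarith
    have hnv : r / 4 * ‖TH363.QI.D n c J - TH363.QI.D n c i‖ ≤ gm B ρ := by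
      have hsub : ball c (r / 4) ⊆ ball c r := ball_subset_ball (by linarith)
      have hne' : ∀ t ∈ ball c (r / 4), orb n t t J - orb n t t i ≠ 0 := by
        intro t ht h0
        exact hno t (hsub ht) (Or.inr (sub_eq_zero.mp h0))
      have hbd' : ∀ t ∈ ball c (r / 4), ‖orb n t t J - orb n t t i‖ ≤ 2 * B := by
        intro t ht
        have ht' : ‖t - c‖ ≤ r / 4 := by rw [mem_ball, dist_eq_norm] at ht; exact ht.le
        have h1 := hbd t ht' J le_rfl
        have h2 := hbd t ht' i (by omega)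
        have h3 := norm_sub_le (orb n t t J) (orb n t t i)
        linarith
      have hd : DifferentiableOn ℂ (fun t => orb n t t J - orb n t t i) (ball c (r / 4)) :=
        ((diff_param (n := n) J).sub (diff_param (n := n) i)).differentiableOn
      have h1 := nv (by positivity : 0 < r / 4) hd hne' hbd'
      have h2 : HasDerivAt (fun t => orb n t t J - orb n t t i)
          (TH363.QI.D n c J - TH363.QI.D n c i) c :=
        (TH363.QI.hasDerivAt_D n c J).sub (TH363.QI.hasDerivAt_D n c i)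
      rw [h2.deriv, ← hρd, gm_eq hB0 hρ0] at h1
      exact h1
    have hgm := gm_le hB1 hρ0 hρ4
    rw [← hg, ← hK1] at hgm
    have hDD : ‖TH363.QI.D n c J - TH363.QI.D n c i‖ ≤ 8 * K1 * g / r := by
      rw [le_div_iff₀ hr]
      linarith
    obtain ⟨ε, hε⟩ : ∃ ε, ε = E / r * ‖P n c c J - P n c c i‖⁻¹ * g := ⟨_, rfl⟩
    have hε0 : 0 < ε := by rw [hε]; positivity
    have hmass : ∫⁻ w in closedBall (0 : ℂ) 3, ‖Er n c J (fun j => orb n c c j)
        (cw n c (P n c c J / (P n c c J - P n c c i)) i) w‖ₑ ≤ ENNReal.ofReal ε := by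
      have h1 := three_mass (x := orb n c c J) (z := orb n c c i) (q := c)
        (u := (P n c c J - P n c c i)⁻¹)
        (v := -((P n c c J - P n c c i)⁻¹ * (TH363.QI.D n c J - TH363.QI.D n c i)))
        (hob J) (hob i) hc2
      refine le_trans (le_of_eq (lintegral_congr fun w => ?_)) (h1.trans
        (ENNReal.ofReal_le_ofReal ?_))
      · rw [Er_coll hiJ.le hPi hPJ hPP]
      · rw [← hρd, ← hg, norm_neg, norm_mul, norm_inv, hε, hE]
        have h4 : 1 ≤ 1 / r := by rw [le_div_iff₀ hr]; linarith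
        calc ‖P n c c J - P n c c i‖⁻¹ * (2 * Real.pi * g) + 2 * Real.pi * 6 *
              (‖P n c c J - P n c c i‖⁻¹ * ‖TH363.QI.D n c J - TH363.QI.D n c i‖)
            ≤ ‖P n c c J - P n c c i‖⁻¹ * (2 * Real.pi * g) * (1 / r) + 2 * Real.pi * 6 *
              (‖P n c c J - P n c c i‖⁻¹ * (8 * K1 * g / r)) := by
              apply add_le_add
              · have : 0 ≤ ‖P n c c J - P n c c i‖⁻¹ * (2 * Real.pi * g) := by positivity
                exact le_mul_of_one_le_right this h4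
              · gcongr
          _ = _ := by ring
    obtain ⟨J', rfl⟩ : ∃ J', J = J' + 1 := ⟨J - 1, by omega⟩
    have h1 := hA0 c hc J' (fun j => orb n c c j)
      (cw n c (P n c c (J' + 1) / (P n c c (J' + 1) - P n c c i)) i) h0
      (fun j _ k => by
        rw [← orb_add]
        exact hob _) (by
        unfold cw
        rw [if_pos (by omega), P_zero, inv_one]) W hW1 (by
        have h2 : 1 + ∑ j ∈ range J',
            ‖cw n c (P n c c (J' + 1) / (P n c c (J' + 1) - P n c c i)) i (j + 1)‖ =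
            ∑ j ∈ range (J' + 1),
              ‖cw n c (P n c c (J' + 1) / (P n c c (J' + 1) - P n c c i)) i j‖ := by
          rw [Finset.sum_range_succ' _ J']
          have : ‖cw n c (P n c c (J' + 1) / (P n c c (J' + 1) - P n c c i)) i 0‖ = 1 := by
            unfold cw
            rw [if_pos (by omega), P_zero, inv_one, norm_one]
          rw [this, add_comm]
        have h3 : ∑ j ∈ range (J' + 1),
            ‖cw n c (P n c c (J' + 1) / (P n c c (J' + 1) - P n c c i)) i j‖ = Λ := by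
          rw [Finset.range_eq_Ico, ← Finset.sum_Ico_consecutive _ (Nat.zero_le i) hiJ.le, hΛ,
            Finset.mul_sum, ← Finset.range_eq_Ico]
          congr 1
          · refine Finset.sum_congr rfl fun j hj => ?_
            rw [Finset.mem_range] at hj
            unfold cw
            rw [if_pos hj, norm_inv]
          · refine Finset.sum_congr rfl fun j hj => ?_
            rw [Finset.mem_Ico] at hj
            unfold cw
            rw [if_neg (by omega), norm_mul, norm_inv]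
            congr 1
            rw [← norm_inv]
            congr 1
            field_simp
        rw [h2, h3, hW, Real.exp_add, Real.exp_log (by linarith)]
        have := Real.one_le_exp (show (0 : ℝ) ≤ 1 by norm_num)
        nlinarith) ε hε0 hmass δ hδ hδ1 (fun j hj => by
        simp only [orb_zero]
        exact hdeep (j + 1) (by omega) (by omega)) M hM (by
        simp only [orb_zero]
        refine le_trans ?_ hyc
        have h3 : W ^ A0 ≤ W ^ A := Real.rpow_le_rpow_of_exponent_le hW1 hAA0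
        have h4 := dx_le (x := c) hy
        have h5 := (dx_pos hn hc hob M).le
        gcongr)
    have h2 : r * X ≤ (E * A0) * W ^ A0 * (M : ℝ) ^ 2 * g := by
      rw [hX]
      calc r * (‖P n c c (J' + 1) - P n c c i‖ * δ) ≤
            r * (‖P n c c (J' + 1) - P n c c i‖ * (A0 * W ^ A0 * (M : ℝ) ^ 2 * ε)) := by gcongr
        _ = _ := by
            rw [hε]
            field_simp
    have h3 : (E * A0) * W ^ A0 * (M : ℝ) ^ 2 * g ≤ (E * A0) * W ^ A * (M : ℝ) ^ 2 * g := by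
      have h4 : W ^ A0 ≤ W ^ A := Real.rpow_le_rpow_of_exponent_le hW1 hAA0
      gcongr
    rw [hY, hA] at *
    nlinarith
  -- conclusion
  by_cases hYX : Y / X ≤ 1
  · have h1 := key (Y / X) (by positivity) hYX (by
      intro t ht hct
      have h2 := hcon t hct
      rw [mem_ball, dist_eq_norm, lt_div_iff₀ hX0] at ht
      linarith)
    rw [div_mul_cancel₀ _ hX0.ne'] at h1
    linarith
  · push Not at hYX
    have h1 := key 1 one_pos le_rfl (by
      intro t ht hct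
      have h2 := hcon t hct
      rw [mem_ball, dist_eq_norm] at ht
      rw [lt_div_iff₀ hX0] at hYX
      nlinarith)
    have h2 : Pool.Agent.H548R3.MB.Centre n (J + 2) 0 := by
      refine ⟨1, le_rfl, by omega, ?_⟩
      exact Pool.Agent.H712R2.P_one hn 0
    have h3 := hcon 0 (Or.inl h2)
    rw [zero_sub, norm_neg] at h3
    nlinarith

end Pool.Agent.Zk29
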