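import Pool.Agent.T2H09.LU.Hole2
import Pool.Agent.T2H09.LW.Sel

/-!
# The distance from a point of the filled Julia set to the points that escape early
-/

set_option autoImplicit false
open Set Filter Topology Metric

namespace Pool.Agent.Zk29

open Pool.Agent.W746.LD Pool.Agent.T2H09.DH Pool.Agent.T2H09.LU N62a1eb23

/-- The distance from `x` to the complement of `UU n c k`. -/
noncomputable def dx (n : ℕ) (c x : ℂ) (k : ℕ) : ℝ := infDist x (UU n c k)ᶜ

/-- Minus its logarithm. -/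
noncomputable def kx (n : ℕ) (c x : ℂ) (k : ℕ) : ℝ := -Real.log (dx n c x k)

variable {n : ℕ} {c x : ℂ}

theorem ball_subx (k : ℕ) : ball x (dx n c x k) ⊆ UU n c k := by
  intro z hz
  by_contra h
  have h1 : infDist x (UU n c k)ᶜ ≤ dist x z := infDist_le_dist_of_mem h
  rw [mem_ball, dist_comm] at hz
  unfold dx at hz
  linarith

theorem dx_le {y : ℂ} {k : ℕ} (hy : 3 ≤ ‖orb n c y k‖) : dx n c x k ≤ ‖y - x‖ := by
  have h1 : infDist x (UU n c k)ᶜ ≤ dist x y :=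
    infDist_le_dist_of_mem (show y ∈ (UU n c k)ᶜ from fun h => absurd hy (not_le.mpr h))
  rw [dist_comm, dist_eq_norm] at h1
  exact h1

theorem dx_pos (hn : 2 ≤ n) (hc : c ∈ multibrotSet n) (hx : ∀ k, ‖orb n c x k‖ ≤ 2) (k : ℕ) :
    0 < dx n c x k := by
  have h1 : x ∉ (UU n c k)ᶜ := by
    intro h
    apply h
    show ‖orb n c x k‖ < 3
    linarith [hx k]
  exact ((ds_closed n c k).notMem_iff_infDist_pos (ds_ne hn hc k)).1 h1

theorem dx_exists (hn : 2 ≤ n) (hc : c ∈ multibrotSet n) (k : ℕ) :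
    ∃ y : ℂ, ‖y - x‖ = dx n c x k ∧ 3 ≤ ‖orb n c y k‖ := by
  obtain ⟨y, hy, h⟩ := (ds_closed n c k).exists_infDist_eq_dist (ds_ne hn hc k) x
  refine ⟨y, ?_, ?_⟩
  · unfold dx
    rw [h, dist_comm, dist_eq_norm]
  · by_contra h1
    exact hy (not_le.1 h1)

theorem dx_zero (hn : 2 ≤ n) (hc : c ∈ multibrotSet n) (hx : ∀ k, ‖orb n c x k‖ ≤ 2) :
    1 ≤ dx n c x 0 := by
  obtain ⟨y, h1, h2⟩ := dx_exists (x := x) hn hc 0
  rw [orb_zero] at h2
  rw [← h1]
  have h3 := hx 0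
  rw [orb_zero] at h3
  have h4 : ‖y‖ ≤ ‖y - x‖ + ‖x‖ := by
    calc ‖y‖ = ‖(y - x) + x‖ := by rw [sub_add_cancel]
      _ ≤ _ := norm_add_le _ _
  linarith

theorem dx_anti (hn : 2 ≤ n) (hc : c ∈ multibrotSet n) (k : ℕ) :
    dx n c x (k + 1) ≤ dx n c x k :=
  infDist_le_infDist_of_subset (compl_subset_compl.2 (UU_anti hn hc k)) (ds_ne hn hc k)

theorem dx_step (hn : 2 ≤ n) (hc : c ∈ multibrotSet n) (hx : ∀ k, ‖orb n c x k‖ ≤ 2) (k : ℕ) :
    dx n c x k ≤ (3 ^ n + 4) * dx n c x (k + 1) := by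
  obtain ⟨y, h1, h2⟩ := dx_exists (x := x) hn hc (k + 1)
  have hδ := dx_pos hn hc hx k
  have hδ1 := dx_pos hn hc hx (k + 1)
  have hc2 := ds_c hn hc
  have h3 : (1 : ℝ) ≤ 3 ^ n + 4 := by
    have : (0 : ℝ) ≤ 3 ^ n := by positivity
    linarith
  by_cases hy : dx n c x k ≤ ‖y - x‖
  · rw [h1] at hy
    calc dx n c x k ≤ 1 * dx n c x (k + 1) := by linarith
      _ ≤ _ := mul_le_mul_of_nonneg_right h3 hδ1.le
  · push Not at hy
    have hmaps : MapsTo (fun z => orb n c z (k + 1)) (ball x (dx n c x k))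
        (closedBall (orb n c x (k + 1)) (3 ^ n + 4)) := by
      intro z hz
      have hz3 : ‖orb n c z k‖ < 3 := ball_subx k hz
      rw [mem_closedBall, dist_eq_norm]
      have e1 : ‖orb n c z (k + 1)‖ ≤ 3 ^ n + 2 := by
        rw [orb_succ]
        refine (norm_add_le _ _).trans ?_
        rw [norm_pow]
        exact add_le_add (pow_le_pow_left₀ (norm_nonneg _) hz3.le n) hc2
      have e2 := hx (k + 1)
      have e3 := norm_sub_le (orb n c z (k + 1)) (orb n c x (k + 1))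
      linarith
    have hyb : y ∈ ball x (dx n c x k) := by rw [mem_ball, dist_eq_norm]; exact hy
    have h4 := Complex.dist_le_div_mul_dist_of_mapsTo_ball
      (ds_diff n c (k + 1)).differentiableOn hmaps hyb
    rw [dist_eq_norm, dist_eq_norm, h1] at h4
    have e2 := hx (k + 1)
    have e4 : ‖orb n c y (k + 1)‖ ≤ ‖orb n c y (k + 1) - orb n c x (k + 1)‖ + ‖orb n c x (k + 1)‖ := by
      calc ‖orb n c y (k + 1)‖ = ‖(orb n c y (k + 1) - orb n c x (k + 1)) + orb n c x (k + 1)‖ := by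
            rw [sub_add_cancel]
        _ ≤ _ := norm_add_le _ _
    have h5 : 1 ≤ (3 ^ n + 4) / dx n c x k * dx n c x (k + 1) := by linarith
    rw [div_mul_eq_mul_div, le_div_iff₀ hδ] at h5
    linarith

theorem exp_kx (hn : 2 ≤ n) (hc : c ∈ multibrotSet n) (hx : ∀ k, ‖orb n c x k‖ ≤ 2) (k : ℕ) :
    Real.exp (-kx n c x k) = dx n c x k := by
  unfold kx
  rw [neg_neg, Real.exp_log (dx_pos hn hc hx k)]

/-- The hole. -/
theorem holex (hn : 2 ≤ n) (hc : c ∈ multibrotSet n) (hx : ∀ k, ‖orb n c x k‖ ≤ 2) {k : ℕ}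
    (hk : 1 ≤ k) {lam : ℝ} (hlam : 0 < lam) (hd : (1 + lam) * dx n c x k ≤ dx n c x (k - 1)) :
    ∃ y : ℂ, ‖y - x‖ = dx n c x k ∧
      ∀ z ∈ ball y (1 / (8 * (3 ^ n + 2)) * lam * dx n c x k),
        z ∈ UU n c (k - 1) ∧ z ∉ UU n c (k + 1) := by
  set R : ℝ := 3 ^ n + 2 with hRdef
  have hR3 : (3 : ℝ) ≤ R := by
    have h1 : (3 : ℝ) ^ 1 ≤ 3 ^ n := pow_le_pow_right₀ (by norm_num) (by omega)
    linarith
  have hR0 : 0 < R := by linarith
  obtain ⟨y, hy, hy3⟩ := dx_exists (x := x) hn hc k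
  have hc2 : ‖c‖ ≤ 2 := norm_le_two hn hc
  have hδ : 0 < dx n c x k := dx_pos hn hc hx k
  set δ := dx n c x k with hδdef
  set r : ℝ := lam * δ with hr
  have hr0 : 0 < r := mul_pos hlam hδ
  have hball : ∀ z ∈ ball y r, z ∈ UU n c (k - 1) := by
    intro z hz
    apply ball_subx (x := x)
    rw [mem_ball, dist_eq_norm] at hz ⊢
    calc ‖z - x‖ = ‖(z - y) + (y - x)‖ := by ring_nf
      _ ≤ ‖z - y‖ + ‖y - x‖ := norm_add_le _ _
      _ < r + δ := by rw [hy]; linarith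
      _ = (1 + lam) * δ := by rw [hr]; ring
      _ ≤ dx n c x (k - 1) := hd
  have hbd : ∀ z ∈ ball y r, ‖orb n c z k‖ < R := by
    intro z hz
    have h1 : ‖orb n c z (k - 1)‖ < 3 := hball z hz
    have h2 : orb n c z k = (orb n c z (k - 1)) ^ n + c := by
      rw [← orb_succ]; congr 1; omega
    rw [h2, hRdef]
    have h3 : ‖orb n c z (k - 1)‖ ^ n < 3 ^ n := pow_lt_pow_left₀ h1 (norm_nonneg _) (by omega)
    calc ‖orb n c z (k - 1) ^ n + c‖ ≤ ‖orb n c z (k - 1) ^ n‖ + ‖c‖ := norm_add_le _ _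
      _ = ‖orb n c z (k - 1)‖ ^ n + ‖c‖ := by rw [norm_pow]
      _ < 3 ^ n + 2 := by linarith
  have hmaps : MapsTo (fun z => orb n c z k) (ball y r) (ball (orb n c y k) (2 * R)) := by
    intro z hz
    rw [mem_ball, dist_eq_norm]
    calc ‖orb n c z k - orb n c y k‖ ≤ ‖orb n c z k‖ + ‖orb n c y k‖ := norm_sub_le _ _
      _ < 2 * R := by
        have := hbd z hz
        have := hbd y (mem_ball_self hr0)
        linarith
  have hdiff : DifferentiableOn ℂ (fun z => orb n c z k) (ball y r) :=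
    fun z _ => (hasDerivAt_orb z k).differentiableAt.differentiableWithinAt
  refine ⟨y, hy, ?_⟩
  intro z hz
  have hz' : z ∈ ball y (1 / (8 * R) * r) := by
    have e : 1 / (8 * R) * r = 1 / (8 * R) * lam * δ := by rw [hr]; ring
    rw [e]
    exact hz
  have hzδ : z ∈ ball y r := by
    apply ball_subset_ball _ hz'
    apply mul_le_of_le_one_left hr0.le
    rw [div_le_one (by positivity)]
    linarith
  refine ⟨hball z hzδ, ?_⟩
  have h1 : dist (orb n c z k) (orb n c y k) ≤ (2 * R) / r * dist z y :=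
    Complex.dist_le_div_mul_dist_of_mapsTo_ball hdiff (hmaps.mono_right ball_subset_closedBall) hzδ
  have h2 : (2 * R) / r * dist z y ≤ 1 / 4 := by
    have h3 : dist z y ≤ 1 / (8 * R) * r := (mem_ball.1 hz').le
    calc (2 * R) / r * dist z y ≤ (2 * R) / r * (1 / (8 * R) * r) :=
          mul_le_mul_of_nonneg_left h3 (by positivity)
      _ = 1 / 4 := by field_simp; norm_num
  have h3 : 11 / 4 ≤ ‖orb n c z k‖ := by
    have h4 : ‖orb n c y k‖ ≤ ‖orb n c z k‖ + dist (orb n c z k) (orb n c y k) := by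
      rw [dist_eq_norm]
      calc ‖orb n c y k‖ = ‖orb n c z k - (orb n c z k - orb n c y k)‖ := by ring_nf
        _ ≤ _ := norm_sub_le _ _
    linarith
  intro hmem
  have h5 : ‖orb n c z (k + 1)‖ < 3 := hmem
  rw [orb_succ] at h5
  have h6 : (11 / 4 : ℝ) ^ 2 ≤ ‖orb n c z k‖ ^ n :=
    calc (11 / 4 : ℝ) ^ 2 ≤ (11 / 4 : ℝ) ^ n := pow_le_pow_right₀ (by norm_num) hn
      _ ≤ ‖orb n c z k‖ ^ n := pow_le_pow_left₀ (by norm_num) h3 n
  have h7 : ‖orb n c z k‖ ^ n ≤ ‖orb n c z k ^ n + c‖ + ‖c‖ := by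
    rw [← norm_pow]
    calc ‖orb n c z k ^ n‖ = ‖(orb n c z k ^ n + c) - c‖ := by ring_nf
      _ ≤ _ := norm_sub_le _ _
  norm_num at h6
  linarith

end Pool.Agent.Zk29
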