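import Pool.Agent.T2H09.LV.Est

/-!
# Quadratic differentials with simple poles in the filled Julia set and their push-forward
-/

set_option autoImplicit false
open Set Filter Topology Metric MeasureTheory Polynomial Finset
open scoped ENNReal

namespace Pool.Agent.Zk29

open Pool.Agent.W746.LD Pool.Agent.T2H09.DH Pool.Agent.T2H09.LU N62a1eb23

/-- The quadratic differential with simple poles at the points `a j`, `j < J`. -/
noncomputable def QQ (J : ℕ) (a α : ℕ → ℂ) (w : ℂ) : ℂ := ∑ j ∈ range J, α j / (w - a j)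

/-- The difference between its push-forward and itself. -/
noncomputable def Er (n : ℕ) (c : ℂ) (J : ℕ) (a α : ℕ → ℂ) (w : ℂ) : ℂ :=
  (∑ j ∈ range J, α j * ((n * a j ^ (n - 1))⁻¹ * (1 / (w - (a j ^ n + c)) - 1 / (w - c)))) -
    QQ J a α w

variable {n : ℕ} {c : ℂ} {J : ℕ} {a α : ℕ → ℂ}

lemma push_QQ (hn : 2 ≤ n) {w : ℂ} (h0 : ∀ j < J, a j ≠ 0)
    (hw : w ≠ c) (hwa : ∀ j < J, w ≠ a j ^ n + c) :
    ∑ ζ ∈ (Tp n c - C w).roots.toFinset, QQ J a α ζ / (n * ζ ^ (n - 1)) ^ 2 =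
      QQ J a α w + Er n c J a α w := by
  have h1 : ∀ ζ : ℂ, QQ J a α ζ / (n * ζ ^ (n - 1)) ^ 2 =
      ∑ j ∈ range J, α j * (1 / (ζ - a j) / (n * ζ ^ (n - 1)) ^ 2) := by
    intro ζ
    unfold QQ
    rw [Finset.sum_div]
    refine Finset.sum_congr rfl fun j _ => ?_
    ring
  simp only [h1]
  rw [Finset.sum_comm]
  unfold Er
  rw [add_sub_cancel]
  refine Finset.sum_congr rfl fun j hj => ?_
  rw [Finset.mem_range] at hj
  rw [← Finset.mul_sum, push_one hn (h0 j hj) hw (hwa j hj)]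

lemma measurable_QQ (J : ℕ) (a α : ℕ → ℂ) : Measurable (QQ J a α) := by
  unfold QQ
  apply Finset.measurable_fun_sum
  intro j _
  exact measurable_const.div (measurable_id.sub_const _)

lemma measurable_Er (n : ℕ) (c : ℂ) (J : ℕ) (a α : ℕ → ℂ) : Measurable (Er n c J a α) := by
  unfold Er
  apply Measurable.sub _ (measurable_QQ J a α)
  apply Finset.measurable_fun_sum
  intro j _
  exact measurable_const.mul (measurable_const.mul
    ((measurable_const.div (measurable_id.sub_const _)).sub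
      (measurable_const.div (measurable_id.sub_const _))))

theorem annulus_massx (hn : 2 ≤ n) (hc : c ∈ multibrotSet n)
    (h0 : ∀ j < J, a j ≠ 0) (ha : ∀ j < J, ‖a j‖ ≤ 2) {ε : ℝ}
    (hε : ∫⁻ w in closedBall (0 : ℂ) 3, ‖Er n c J a α w‖ₑ ≤ ENNReal.ofReal ε) (k : ℕ) :
    ∫⁻ w in UU n c k \ UU n c (k + 1), ‖QQ J a α w‖ₑ ≤ ENNReal.ofReal ε := by
  set E : Set ℂ := UU n c k with hE
  have hEm : MeasurableSet E := (isOpen_UU' n c k).measurableSet
  have hqm := measurable_QQ J a α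
  have hE3 : E ⊆ closedBall 0 3 := UU_sub_ball hn hc k
  -- finiteness
  have hfin : ∫⁻ w in E, ‖QQ J a α w‖ₑ ≠ ⊤ := by
    have h1 : ∫⁻ w in closedBall (0 : ℂ) 3, ‖QQ J a α w‖ₑ ≤
        ∑ j ∈ Finset.range J, ENNReal.ofReal (2 * Real.pi * 6 * ‖α j‖) := by
      calc ∫⁻ w in closedBall (0 : ℂ) 3, ‖QQ J a α w‖ₑ
          ≤ ∫⁻ w in closedBall (0 : ℂ) 3, ∑ j ∈ Finset.range J, ‖α j / (w - a j)‖ₑ :=
            lintegral_mono fun w => enorm_sum_le _ _
        _ = ∑ j ∈ Finset.range J, ∫⁻ w in closedBall (0 : ℂ) 3, ‖α j / (w - a j)‖ₑ := by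
            apply lintegral_finsetSum'
            intro j _
            exact (measurable_const.div (measurable_id.sub_const _)).enorm.aemeasurable
        _ ≤ _ := Finset.sum_le_sum fun j hj => int_term_le _ _ (by
            have := ha j (Finset.mem_range.mp hj)
            linarith)
    refine ne_top_of_le_ne_top ?_ ((lintegral_mono_set hE3).trans h1)
    exact (ENNReal.sum_lt_top.mpr fun j _ => ENNReal.ofReal_lt_top).ne
  -- the poles are a null set
  have hae : ∀ᵐ w : ℂ, w ≠ c ∧ ∀ j, w ≠ a j ^ n + c := by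
    have h1 : ∀ᵐ w : ℂ, w ≠ c := by
      rw [ae_iff]
      simp
    have h2 : ∀ᵐ w : ℂ, ∀ j, w ≠ a j ^ n + c := by
      rw [ae_all_iff]
      intro j
      rw [ae_iff]
      simp
    exact h1.and h2
  have her : ∫⁻ w in E, ‖Er n c J a α w‖ₑ ≤ ENNReal.ofReal ε := (lintegral_mono_set hE3).trans hε
  have key : ∫⁻ w in E, ‖QQ J a α w‖ₑ ≤ (∫⁻ w in UU n c (k + 1), ‖QQ J a α w‖ₑ) +
      ENNReal.ofReal ε := by
    calc ∫⁻ w in E, ‖QQ J a α w‖ₑ
        ≤ ∫⁻ w in E, (‖∑ ζ ∈ (Tp n c - Polynomial.C w).roots.toFinset,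
            QQ J a α ζ / (n * ζ ^ (n - 1)) ^ 2‖ₑ + ‖Er n c J a α w‖ₑ) := by
          apply lintegral_mono_ae
          apply ae_restrict_of_ae
          filter_upwards [hae] with w hw
          rw [push_QQ hn h0 hw.1 (fun j _ => hw.2 j)]
          have h2 : QQ J a α w = (QQ J a α w + Er n c J a α w) - Er n c J a α w := by ring
          calc ‖QQ J a α w‖ₑ = ‖(QQ J a α w + Er n c J a α w) - Er n c J a α w‖ₑ := by rw [← h2]
            _ ≤ _ := enorm_sub_le
      _ = (∫⁻ w in E, ‖∑ ζ ∈ (Tp n c - Polynomial.C w).roots.toFinset,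
            QQ J a α ζ / (n * ζ ^ (n - 1)) ^ 2‖ₑ) + ∫⁻ w in E, ‖Er n c J a α w‖ₑ := by
          apply lintegral_add_right
          exact (measurable_Er n c J a α).enorm
      _ ≤ _ := by
          refine add_le_add ((contr hn c hqm hEm).trans ?_) her
          rw [hE, UU_preim]
  have hsub : UU n c (k + 1) ⊆ E := UU_anti hn hc k
  have h3 : (∫⁻ w in UU n c (k + 1), ‖QQ J a α w‖ₑ) +
      ∫⁻ w in E \ UU n c (k + 1), ‖QQ J a α w‖ₑ ≤
      (∫⁻ w in UU n c (k + 1), ‖QQ J a α w‖ₑ) + ENNReal.ofReal ε := by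
    have h4 := lintegral_inter_add_sdiff (μ := volume) (fun w => ‖QQ J a α w‖ₑ) E
      (isOpen_UU' n c (k + 1)).measurableSet
    rw [inter_eq_right.mpr hsub] at h4
    rw [h4]
    exact key
  refine ENNReal.le_of_add_le_add_left ?_ h3
  exact ne_top_of_le_ne_top hfin (lintegral_mono_set hsub)

/-- The value of the quadratic differential in a hole. -/
lemma QQ_le (hn : 2 ≤ n) (hc : c ∈ multibrotSet n)
    (h0 : ∀ j < J, a j ≠ 0) (ha : ∀ j < J, ∀ k, ‖orb n c (a j) k‖ ≤ 2) {ε : ℝ} (hε0 : 0 ≤ ε)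
    (hmass : ∫⁻ w in closedBall (0 : ℂ) 3, ‖Er n c J a α w‖ₑ ≤ ENNReal.ofReal ε) {k : ℕ}
    (hk : 1 ≤ k) {w : ℂ} {s : ℝ} (hs : 0 < s)
    (hA : ∀ x ∈ ball w s, x ∈ UU n c (k - 1) ∧ x ∉ UU n c (k + 1)) :
    ‖QQ J a α w‖ ≤ 2 * ε / s ^ 2 := by
  have ha2 : ∀ j < J, ‖a j‖ ≤ 2 := fun j hj => by simpa using ha j hj 0
  have hz : ∀ j < J, s ≤ ‖a j - w‖ := by
    intro j hj
    by_contra hcon
    push Not at hcon
    have h1 : a j ∈ ball w s := by rwa [mem_ball, dist_eq_norm]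
    apply (hA _ h1).2
    show ‖orb n c (a j) (k + 1)‖ < 3
    linarith [ha j hj (k + 1)]
  have h1 := hole J a α w (s := s) (δ := 1)
    (B := 2 / s) hs one_pos hz X (by simp) (by
      intro u hu
      rw [eval_X]
      simpa using hu)
  have h2 : ∫⁻ w in ball w s, ‖QQ J a α w‖ₑ ≤ ENNReal.ofReal (((1 : ℕ) + 1) * ε) := by
    have hsub : ball w s ⊆ (UU n c (k - 1) \ UU n c (k - 1 + 1)) ∪
        (UU n c k \ UU n c (k + 1)) := by
      intro z hz'
      obtain ⟨h2, h3⟩ := hA z hz'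
      by_cases h4 : z ∈ UU n c k
      · exact Or.inr ⟨h4, h3⟩
      · refine Or.inl ⟨h2, ?_⟩
        rwa [Nat.sub_add_cancel hk]
    calc ∫⁻ w in ball w s, ‖QQ J a α w‖ₑ
        ≤ ∫⁻ w in (UU n c (k - 1) \ UU n c (k - 1 + 1)) ∪ (UU n c k \ UU n c (k + 1)),
            ‖QQ J a α w‖ₑ := lintegral_mono_set hsub
      _ ≤ (∫⁻ w in UU n c (k - 1) \ UU n c (k - 1 + 1), ‖QQ J a α w‖ₑ) +
            ∫⁻ w in UU n c k \ UU n c (k + 1), ‖QQ J a α w‖ₑ := lintegral_union_le _ _ _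
      _ ≤ ENNReal.ofReal ε + ENNReal.ofReal ε :=
          add_le_add (annulus_massx hn hc h0 ha2 hmass (k - 1))
            (annulus_massx hn hc h0 ha2 hmass k)
      _ = _ := by
          rw [← ENNReal.ofReal_add hε0 hε0]
          congr 1
          push_cast
          ring
  have h3 : ENNReal.ofReal (Real.pi * s *
      ‖∑ j ∈ Finset.range J, α j * (X : ℂ[X]).eval (((1 : ℝ) : ℂ) / (a j - w))‖) ≤
      ENNReal.ofReal (2 / s * (((1 : ℕ) + 1) * ε)) := by
    rw [ENNReal.ofReal_mul (show (0 : ℝ) ≤ 2 / s by positivity)]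
    refine h1.trans ?_
    gcongr
    exact h2
  rw [ENNReal.ofReal_le_ofReal_iff (by positivity)] at h3
  have e : ∑ j ∈ Finset.range J, α j *
      (X : ℂ[X]).eval (((1 : ℝ) : ℂ) / (a j - w)) = -QQ J a α w := by
    unfold QQ
    rw [← Finset.sum_neg_distrib]
    refine Finset.sum_congr rfl fun j _ => ?_
    rw [eval_X, Complex.ofReal_one, mul_one_div, ← neg_sub w, div_neg]
  rw [e, norm_neg] at h3
  have h4 : 2 * s * ‖QQ J a α w‖ ≤ Real.pi * s * ‖QQ J a α w‖ := by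
    have := Real.pi_gt_three
    gcongr
    linarith
  rw [le_div_iff₀ (by positivity)]
  push_cast at h3
  have h5 : 2 * s * ‖QQ J a α w‖ ≤ 2 / s * ((1 + 1) * ε) := h4.trans h3
  have h6 : 2 / s * ((1 + 1) * ε) = 4 * ε / s := by ring
  rw [h6, le_div_iff₀ hs] at h5
  nlinarith

end Pool.Agent.Zk29
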