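import Pool.Agent.Zk29.Gen.Nodes
import Pool.Agent.Zk29.Gen.Push
import Pool.Agent.T2H09.LW.Blk

/-!
# The lower bound for the mass of the error term
-/

set_option autoImplicit false
open Set Filter Topology Metric MeasureTheory Polynomial Finset
open scoped ENNReal

namespace Pool.Agent.Zk29

open Pool.Agent.W746.LD Pool.Agent.T2H09.DH Pool.Agent.T2H09.LU Pool.Agent.T2H09.LW N62a1eb23

variable {n : ℕ} {c : ℂ} {a α : ℕ → ℂ}

/-- The product of the quadratic differential with `w - a 0`. -/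
noncomputable def GG (a α : ℕ → ℂ) (J' : ℕ) (w : ℂ) : ℂ :=
  1 + (w - a 0) * ∑ i ∈ range J', α (i + 1) / (w - a (i + 1))

lemma GG_self (J' : ℕ) : GG a α J' (a 0) = 1 := by
  unfold GG
  rw [sub_self, zero_mul, add_zero]

lemma GG_eq (J' : ℕ) (hα : α 0 = 1) {w : ℂ} (hw : w ≠ a 0) :
    GG a α J' w = (w - a 0) * QQ (J' + 1) a α w := by
  unfold GG QQ
  rw [Finset.sum_range_succ', mul_add, hα, mul_one_div, div_self (sub_ne_zero.mpr hw)]
  ring

theorem GG_disc {J' : ℕ} {W m : ℝ} (hW : 1 + ∑ j ∈ range J', ‖α (j + 1)‖ ≤ Real.exp W)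
    (hdeep : ∀ j < J', Real.exp (-m) ≤ ‖a (j + 1) - a 0‖) :
    DifferentiableOn ℂ (GG a α J') (ball (a 0) (Real.exp (-m) / 2)) ∧
    ∀ w ∈ ball (a 0) (Real.exp (-m) / 2), ‖GG a α J' w‖ ≤ Real.exp W := by
  set R : ℝ := Real.exp (-m) / 2 with hR
  have hR0 : 0 < R := by positivity
  have hfar : ∀ w ∈ ball (a 0) R, ∀ i < J', R ≤ ‖w - a (i + 1)‖ := by
    intro w hw i hi
    have h1 : ‖w - a 0‖ < R := by rwa [mem_ball, dist_eq_norm] at hw
    have h2 := hdeep i hi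
    have h3 : ‖a (i + 1) - a 0‖ ≤ ‖w - a (i + 1)‖ + ‖w - a 0‖ := by
      calc ‖a (i + 1) - a 0‖ = ‖(w - a 0) - (w - a (i + 1))‖ := by ring_nf
        _ ≤ ‖w - a 0‖ + ‖w - a (i + 1)‖ := norm_sub_le _ _
        _ = _ := add_comm _ _
    linarith
  constructor
  · intro w hw
    apply DifferentiableAt.differentiableWithinAt
    unfold GG
    apply DifferentiableAt.const_add
    apply DifferentiableAt.mul
    · exact differentiableAt_id.sub_const _
    · apply DifferentiableAt.fun_sum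
      intro i hi
      apply DifferentiableAt.div
      · exact differentiableAt_const _
      · exact differentiableAt_id.sub_const _
      · have := hfar w hw i (Finset.mem_range.mp hi)
        intro h1
        rw [h1, norm_zero] at this
        linarith
  · intro w hw
    have h1 : ‖w - a 0‖ < R := by rwa [mem_ball, dist_eq_norm] at hw
    unfold GG
    have h2 : ‖(w - a 0) * ∑ i ∈ Finset.range J', α (i + 1) / (w - a (i + 1))‖ ≤
        ∑ i ∈ range J', ‖α (i + 1)‖ := by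
      rw [Finset.mul_sum]
      refine (norm_sum_le _ _).trans (Finset.sum_le_sum fun i hi => ?_)
      rw [Finset.mem_range] at hi
      have h3 := hfar w hw i hi
      have h5 : 0 < ‖w - a (i + 1)‖ := by linarith
      rw [norm_mul, norm_div]
      calc ‖w - a 0‖ * (‖α (i + 1)‖ / ‖w - a (i + 1)‖)
          ≤ ‖w - a (i + 1)‖ * (‖α (i + 1)‖ / ‖w - a (i + 1)‖) := by
            gcongr
            linarith
        _ = _ := by field_simp
    refine le_trans ((norm_add_le _ _).trans ?_) hW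
    rw [norm_one]
    linarith

theorem main_x (hn : 2 ≤ n) (hc : c ∈ multibrotSet n) {J' : ℕ}
    (h0 : ∀ j < J' + 1, a j ≠ 0) (ha : ∀ j < J' + 1, ∀ k, ‖orb n c (a j) k‖ ≤ 2) (hα0 : α 0 = 1)
    {W : ℝ} (hW0 : 0 ≤ W) (hW : 1 + ∑ j ∈ range J', ‖α (j + 1)‖ ≤ Real.exp W)
    {ε : ℝ} (hε : 0 < ε)
    (hmass : ∫⁻ w in closedBall (0 : ℂ) 3, ‖Er n c (J' + 1) a α w‖ₑ ≤ ENNReal.ofReal ε)
    {L : ℝ} (hL0 : 0 ≤ L) (hL : ∀ k, kx n c (a 0) (k + 1) ≤ kx n c (a 0) k + L)
    {m : ℝ} (hm : 0 ≤ m) (hdeep : ∀ j < J', Real.exp (-m) ≤ ‖a (j + 1) - a 0‖)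
    {h m0 K : ℝ} (hh : h = 1 / (8 * (3 ^ n + 2))) (hLh : h * L ≤ 1)
    (hm0 : m0 = Real.exp (-(2 + L)) * h / 4) (hK : K = 8 * Real.exp 1 / m0) {q : ℕ}
    (hq : W + 2 ≤ 2 ^ q) {Dm : ℕ}
    (hDm : ⌊(W + (2 * Real.log (K + 2) + 2)) / 2⌋₊ + 1 ≤ Dm) {M : ℕ}
    (hx : m + Real.log (4 * K ^ 2) + q * Real.log (2 * K ^ 2) + 2 ≤ kx n c (a 0) M) :
    -(2 * Real.log (K + 2) + 2) < Real.log ε + Real.log (12 * (Dm * (M + 1)) ^ 2 / h ^ 2) +
      (m + Real.log (4 * K ^ 2) + q * Real.log (2 * K ^ 2) + 2 + L) := by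
  have hn1 : (1 : ℝ) ≤ n := by exact_mod_cast (by omega : 1 ≤ n)
  have h3n : (1 : ℝ) ≤ 3 ^ n := one_le_pow₀ (by norm_num)
  have hh0 : 0 < h := by rw [hh]; positivity
  have hh1 : h ≤ 1 := by
    rw [hh, div_le_one (by positivity)]
    linarith
  have hm00 : 0 < m0 := by rw [hm0]; positivity
  have hm01 : m0 ≤ 1 := by
    rw [hm0]
    have h1 : Real.exp (-(2 + L)) ≤ 1 := by rw [Real.exp_le_one_iff]; linarith
    have h2 : 0 ≤ Real.exp (-(2 + L)) := (Real.exp_pos _).le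
    nlinarith
  have hK8 : 8 * Real.exp 1 ≤ K := by
    rw [hK, le_div_iff₀ hm00]
    nlinarith [Real.exp_pos 1]
  have hexp1 : 2 ≤ Real.exp 1 := by
    have := Real.add_one_le_exp (1 : ℝ)
    linarith
  have hK16 : 16 ≤ K := by linarith
  have hK0 : 0 < K := by linarith
  have hK1 : 1 ≤ K ^ 2 := one_le_pow₀ (by linarith)
  have hlK4 : 0 ≤ Real.log (4 * K ^ 2) := Real.log_nonneg (by linarith)
  have hlK2 : 0 ≤ Real.log (2 * K ^ 2) := Real.log_nonneg (by linarith)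
  have hx2 : ∀ k, ‖orb n c (a 0) k‖ ≤ 2 := ha 0 (by omega)
  obtain ⟨hG, hGl⟩ := GG_disc (a := a) (α := α) hW hdeep
  obtain ⟨e, he⟩ : ∃ e, e = -(2 * Real.log (K + 2) + 2) := ⟨_, rfl⟩
  rw [← he]
  by_contra hcon
  push Not at hcon
  obtain ⟨x, hxd⟩ : ∃ x : ℕ → ℝ, x = fun i : ℕ => m + Real.log (4 * K ^ 2) +
    (i : ℝ) * Real.log (2 * K ^ 2) := ⟨_, rfl⟩
  have hx0 : ∀ i, 0 ≤ x i := by
    intro i
    rw [hxd]
    have : 0 ≤ (i : ℝ) * Real.log (2 * K ^ 2) := by positivity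
    simp only
    linarith
  have hxq : ∀ i < q, x i ≤ m + Real.log (4 * K ^ 2) + q * Real.log (2 * K ^ 2) := by
    intro i hi
    rw [hxd]
    have h1 : (i : ℝ) ≤ q := by exact_mod_cast hi.le
    have h2 : (i : ℝ) * Real.log (2 * K ^ 2) ≤ q * Real.log (2 * K ^ 2) := by gcongr
    simp only
    linarith
  have h4K : Real.exp (-Real.log (4 * K ^ 2)) = 1 / (4 * K ^ 2) := by
    rw [Real.exp_neg, Real.exp_log (by positivity), one_div]
  have h2K : Real.exp (-Real.log (2 * K ^ 2)) = 1 / (2 * K ^ 2) := by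
    rw [Real.exp_neg, Real.exp_log (by positivity), one_div]
  have hlt := blocks (G := GG a α J') (c := a 0) (m := m0) (K := K) (R' := Real.exp (-m) / 2)
    (e := e) (A := W) hm00 hm01 hK hG hGl hW0 he hq (fun i => Real.exp (-x i))
    (fun i _ => Real.exp_pos _)
    (by
      have e1 : Real.exp (-x 0) = Real.exp (-m) * (1 / (4 * K ^ 2)) := by
        rw [← h4K, ← Real.exp_add]
        congr 1
        rw [hxd]
        simp only
        push_cast
        ring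
      change K ^ 2 * Real.exp (-x 0) < Real.exp (-m) / 2
      rw [e1]
      have e2 : K ^ 2 * (Real.exp (-m) * (1 / (4 * K ^ 2))) = Real.exp (-m) / 4 := by field_simp
      rw [e2]
      have := Real.exp_pos (-m)
      linarith)
    (by
      intro i hi
      have e1 : Real.exp (-x (i + 1)) = Real.exp (-x i) * (1 / (2 * K ^ 2)) := by
        rw [← h2K, ← Real.exp_add]
        congr 1
        rw [hxd]
        simp only
        push_cast
        ring
      change K ^ 2 * Real.exp (-x (i + 1)) < Real.exp (-x i)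
      rw [e1]
      have e2 : K ^ 2 * (Real.exp (-x i) * (1 / (2 * K ^ 2))) = Real.exp (-x i) / 2 := by
        field_simp
      rw [e2]
      have := Real.exp_pos (-x i)
      linarith)
    (by
      intro i hi D hD1 hD2
      have hDle : D ≤ Dm := by
        refine hD2.trans (le_trans (le_of_eq ?_) hDm)
        rw [he, sub_neg_eq_add]
      have hxi := hxq i hi
      obtain ⟨w, hw1, hw2, hw3⟩ := nodesx hn hc hx2 (M := M) hL hh hLh (hx0 i) (by linarith) hD1
      refine ⟨w, hw1, ?_, ?_⟩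
      · intro j hj k hk
        have := hw2 j hj k hk
        rw [← hm0] at this
        exact this
      · intro j hj
        obtain ⟨k, k1, k2, k3, k4, k5, k6, k7⟩ := hw3 j hj
        have hδ := dx_pos hn hc hx2 k
        obtain ⟨lam, hlam⟩ : ∃ lam, lam = kx n c (a 0) k - kx n c (a 0) (k - 1) := ⟨_, rfl⟩
        rw [← hlam] at k3 k4 k7
        have hqd := QQ_le hn hc h0 ha hε.le hmass k1
          (s := h / 2 * lam * dx n c (a 0) k) (by positivity) k7
        rw [GG_eq J' hα0 k5, norm_mul]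
        have hD0 : (0 : ℝ) < D := by exact_mod_cast hD1
        have hDm' : (D : ℝ) ≤ Dm := by exact_mod_cast hDle
        have hlam' : 1 / lam ≤ Dm * (M + 1) := by
          rw [div_le_iff₀ k3]
          have h1 : 1 ≤ (D : ℝ) * (M + 1) * lam := by
            rw [div_le_iff₀ (by positivity)] at k4
            linarith
          refine h1.trans ?_
          gcongr
        have hδ' : 1 / dx n c (a 0) k ≤ Real.exp (x i + 2 + L) := by
          rw [← exp_kx hn hc hx2 k, one_div, ← Real.exp_neg, neg_neg]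
          exact Real.exp_le_exp.mpr k2
        have hD0m : (0 : ℝ) < Dm := by linarith
        calc ‖w j - a 0‖ * ‖QQ (J' + 1) a α (w j)‖
            ≤ 3 / 2 * dx n c (a 0) k * (2 * ε / (h / 2 * lam * dx n c (a 0) k) ^ 2) := by gcongr
          _ = 12 * ε / h ^ 2 * (1 / lam) ^ 2 * (1 / dx n c (a 0) k) := by
              field_simp
              norm_num
          _ ≤ 12 * ε / h ^ 2 * (Dm * (M + 1)) ^ 2 * Real.exp (x i + 2 + L) := by gcongr
          _ = Real.exp (Real.log ε + Real.log (12 * (Dm * (M + 1)) ^ 2 / h ^ 2) +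
                (x i + 2 + L)) := by
              rw [Real.exp_add (Real.log ε + _) _, Real.exp_add (Real.log ε) _, Real.exp_log hε,
                Real.exp_log (by positivity)]
              ring
          _ ≤ Real.exp e := by
              apply Real.exp_le_exp.mpr
              linarith)
  rw [GG_self, norm_one] at hlt
  exact lt_irrefl _ hlt

/-- **The lower bound for the mass of the error term**, with explicit dependence. -/
theorem mass_ge (hn : 2 ≤ n) : ∃ A : ℝ, 1 ≤ A ∧ ∀ c ∈ multibrotSet n, ∀ (J' : ℕ) (a α : ℕ → ℂ),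
    (∀ j < J' + 1, a j ≠ 0) → (∀ j < J' + 1, ∀ k, ‖orb n c (a j) k‖ ≤ 2) → α 0 = 1 →
    ∀ W : ℝ, 1 ≤ W → 1 + ∑ j ∈ range J', ‖α (j + 1)‖ ≤ Real.exp W →
    ∀ ε : ℝ, 0 < ε →
    ∫⁻ w in closedBall (0 : ℂ) 3, ‖Er n c (J' + 1) a α w‖ₑ ≤ ENNReal.ofReal ε →
    ∀ δ : ℝ, 0 < δ → δ ≤ 1 → (∀ j < J', δ ≤ ‖a (j + 1) - a 0‖) →
    ∀ M : ℕ, 1 ≤ M → A * W ^ A * dx n c (a 0) M ≤ δ → δ ≤ A * W ^ A * (M : ℝ) ^ 2 * ε := by
  have hn1 : (1 : ℝ) ≤ n := by exact_mod_cast (by omega : 1 ≤ n)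
  have h3n : (1 : ℝ) ≤ 3 ^ n := one_le_pow₀ (by norm_num)
  obtain ⟨L, hLd⟩ : ∃ L, L = Real.log (3 ^ n + 4) := ⟨_, rfl⟩
  have hL0 : 0 ≤ L := by rw [hLd]; exact Real.log_nonneg (by linarith)
  obtain ⟨h, hh⟩ : ∃ h : ℝ, h = 1 / (8 * (3 ^ n + 2)) := ⟨_, rfl⟩
  have hh0 : 0 < h := by rw [hh]; positivity
  have hLh : h * L ≤ 1 := by
    rw [hh, div_mul_eq_mul_div, one_mul, div_le_one (by positivity), hLd]
    have := Real.log_le_sub_one_of_pos (show (0 : ℝ) < 3 ^ n + 4 by positivity)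
    linarith
  obtain ⟨m0, hm0⟩ : ∃ m0, m0 = Real.exp (-(2 + L)) * h / 4 := ⟨_, rfl⟩
  have hm00 : 0 < m0 := by rw [hm0]; positivity
  obtain ⟨K, hK⟩ : ∃ K, K = 8 * Real.exp 1 / m0 := ⟨_, rfl⟩
  have hh1 : h ≤ 1 := by
    rw [hh, div_le_one (by positivity)]
    linarith
  have hm01 : m0 ≤ 1 := by
    rw [hm0]
    have h1 : Real.exp (-(2 + L)) ≤ 1 := by rw [Real.exp_le_one_iff]; linarith
    have h2 : 0 ≤ Real.exp (-(2 + L)) := (Real.exp_pos _).le
    nlinarith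
  have hexp1 : 2 ≤ Real.exp 1 := by
    have := Real.add_one_le_exp (1 : ℝ)
    linarith
  have hK16 : 16 ≤ K := by
    rw [hK, le_div_iff₀ hm00]
    nlinarith
  have hK0 : 0 < K := by linarith
  have hK1 : 1 ≤ K ^ 2 := one_le_pow₀ (by linarith)
  have hlK4 : 0 ≤ Real.log (4 * K ^ 2) := Real.log_nonneg (by linarith)
  have hlK2 : 0 ≤ Real.log (2 * K ^ 2) := Real.log_nonneg (by linarith)
  have hlKK : 0 ≤ Real.log (K + 2) := Real.log_nonneg (by linarith)
  obtain ⟨l2, hl2⟩ : ∃ l2, l2 = Real.log 2 := ⟨_, rfl⟩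
  have hl20 : 0 < l2 := by rw [hl2]; exact Real.log_pos (by norm_num)
  obtain ⟨LK, hLK⟩ : ∃ LK, LK = Real.log (2 * K ^ 2) := ⟨_, rfl⟩
  rw [← hLK] at hlK2
  obtain ⟨B2, hB2⟩ : ∃ B2, B2 = Real.log (K + 2) + 4 := ⟨_, rfl⟩
  have hB21 : 1 ≤ B2 := by rw [hB2]; linarith
  have hlog3 : 0 ≤ Real.log 3 := Real.log_nonneg (by norm_num)
  obtain ⟨A3, hA3⟩ : ∃ A3, A3 = Real.log 3 / l2 + 1 := ⟨_, rfl⟩
  have hA30 : 0 ≤ A3 := by rw [hA3]; positivity
  -- the constants
  obtain ⟨A1, hA1⟩ : ∃ A1, A1 = Real.log (4 * K ^ 2) + A3 * LK + 2 + L + (2 * Real.log (K + 2) + 2) +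
    Real.log (48 * B2 ^ 2 / h ^ 2) := ⟨_, rfl⟩
  have hl48 : 0 ≤ Real.log (48 * B2 ^ 2 / h ^ 2) := by
    apply Real.log_nonneg
    rw [le_div_iff₀ (by positivity)]
    have h1 : h ^ 2 ≤ 1 := pow_le_one₀ hh0.le hh1
    have h2 : 1 ≤ B2 ^ 2 := one_le_pow₀ hB21
    linarith
  have hA10 : 0 ≤ A1 := by rw [hA1]; positivity
  refine ⟨Real.exp A1 + LK / l2 + 2, ?_, ?_⟩
  · have := Real.exp_pos A1
    have : 0 ≤ LK / l2 := by positivity
    linarith
  intro c hc J' a α h0 ha hα0 W hW1 hW ε hε hmass δ hδ hδ1 hdeep M hM hx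
  obtain ⟨A, hA⟩ : ∃ A, A = Real.exp A1 + LK / l2 + 2 := ⟨_, rfl⟩
  rw [← hA] at hx ⊢
  have hA0 : 0 < A := by rw [hA]; positivity
  have hWpos : 0 < W := by linarith
  have hx2 : ∀ k, ‖orb n c (a 0) k‖ ≤ 2 := ha 0 (by omega)
  have hd0 := dx_pos hn hc hx2 M
  have hM1 : (1 : ℝ) ≤ M := by exact_mod_cast hM
  obtain ⟨l, hl⟩ : ∃ l, l = Real.log W := ⟨_, rfl⟩
  have hl0 : 0 ≤ l := by rw [hl]; exact Real.log_nonneg hW1
  -- the number of blocks
  obtain ⟨q, hq⟩ : ∃ q : ℕ, q = ⌈Real.log (3 * W) / l2⌉₊ := ⟨_, rfl⟩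
  have hlBM : Real.log (3 * W) = Real.log 3 + l := by
    rw [Real.log_mul (by norm_num) hWpos.ne', ← hl]
  have hq1 : W + 2 ≤ 2 ^ q := by
    have h1 : Real.log (3 * W) / l2 ≤ q := by rw [hq]; exact Nat.le_ceil _
    rw [div_le_iff₀ hl20] at h1
    have h2 : 3 * W ≤ 2 ^ q := by
      have h3 : (2 : ℝ) ^ q = Real.exp (q * l2) := by
        rw [Real.exp_nat_mul, hl2, Real.exp_log (by norm_num)]
      rw [h3, ← Real.exp_log (show 0 < 3 * W by positivity)]
      exact Real.exp_le_exp.mpr h1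
    linarith
  have hq2 : (q : ℝ) ≤ A3 + l / l2 := by
    have h1 : (q : ℝ) ≤ (Real.log 3 + l) / l2 + 1 := by
      rw [hq, ← hlBM]
      apply (Nat.ceil_lt_add_one _).le
      rw [hlBM]
      positivity
    rw [add_div] at h1
    rw [hA3]
    linarith
  -- the number of nodes
  obtain ⟨Dm, hDm⟩ : ∃ Dm : ℕ, Dm = ⌊(W + (2 * Real.log (K + 2) + 2)) / 2⌋₊ + 1 := ⟨_, rfl⟩
  have hDm1 : (1 : ℝ) ≤ Dm := by
    rw [hDm]
    push_cast
    have : (0 : ℝ) ≤ (⌊(W + (2 * Real.log (K + 2) + 2)) / 2⌋₊ : ℝ) := Nat.cast_nonneg _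
    linarith
  have hDm2 : (Dm : ℝ) ≤ B2 * W := by
    have h1 : (Dm : ℝ) ≤ (W + (2 * Real.log (K + 2) + 2)) / 2 + 1 := by
      rw [hDm]
      push_cast
      have := Nat.floor_le (show 0 ≤ (W + (2 * Real.log (K + 2) + 2)) / 2 by positivity)
      linarith
    rw [hB2]
    have h2 : Real.log (K + 2) + 3 ≤ (Real.log (K + 2) + 3) * W :=
      le_mul_of_one_le_right (by linarith) hW1
    linarith
  have hqLK : (q : ℝ) * LK ≤ A3 * LK + LK / l2 * l := by
    calc (q : ℝ) * LK ≤ (A3 + l / l2) * LK := by gcongr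
      _ = _ := by ring
  obtain ⟨m, hm⟩ : ∃ m, m = -Real.log δ := ⟨_, rfl⟩
  have hm00' : 0 ≤ m := by
    rw [hm]
    have := Real.log_nonpos hδ.le hδ1
    linarith
  have hexpm : Real.exp (-m) = δ := by rw [hm, neg_neg, Real.exp_log hδ]
  have hlogA : A1 ≤ Real.log A := by
    rw [Real.le_log_iff_exp_le hA0, hA]
    have : 0 ≤ LK / l2 := by positivity
    linarith
  have hAl : LK / l2 * l + 2 * l ≤ A * l := by
    rw [hA]
    have := Real.exp_pos A1
    nlinarith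
  have hkx : m + Real.log A + A * l ≤ kx n c (a 0) M := by
    have h1 := Real.log_le_log (by positivity) hx
    rw [Real.log_mul (by positivity) hd0.ne', Real.log_mul hA0.ne' (by positivity),
      Real.log_rpow hWpos, ← hl] at h1
    unfold kx
    rw [hm]
    linarith
  have hcond : m + Real.log (4 * K ^ 2) + q * Real.log (2 * K ^ 2) + 2 ≤ kx n c (a 0) M := by
    rw [← hLK]
    rw [hA1] at hlogA
    linarith only [hkx, hlogA, hAl, hqLK, hl0, hlKK, hl48, hL0]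
  have key := main_x hn hc h0 ha hα0 (by linarith) hW hε hmass hL0
    (fun k => by
      unfold kx
      have h1 := Real.log_le_log (dx_pos hn hc hx2 k) (dx_step hn hc hx2 k)
      rw [Real.log_mul (by positivity) (dx_pos hn hc hx2 (k + 1)).ne'] at h1
      linarith)
    hm00' (fun j hj => by rw [hexpm]; exact hdeep j hj) hh hLh hm0 hK hq1 hDm.ge hcond
  rw [← hLK] at key
  have hlog : Real.log (12 * (Dm * (M + 1)) ^ 2 / h ^ 2) ≤
      Real.log (48 * B2 ^ 2 / h ^ 2) + 2 * l + 2 * Real.log M := by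
    have h1 : 12 * ((Dm : ℝ) * (M + 1)) ^ 2 / h ^ 2 ≤ (48 * B2 ^ 2 / h ^ 2) * W ^ 2 * (M : ℝ) ^ 2 := by
      have h2 : (Dm : ℝ) * (M + 1) ≤ B2 * W * (2 * M) := by
        gcongr
        linarith
      have h3 : (48 * B2 ^ 2 / h ^ 2) * W ^ 2 * (M : ℝ) ^ 2 = 12 * (B2 * W * (2 * M)) ^ 2 / h ^ 2 := by
        ring
      rw [h3]
      gcongr
    refine (Real.log_le_log (by positivity) h1).trans (le_of_eq ?_)
    rw [Real.log_mul (by positivity) (by positivity), Real.log_mul (by positivity) (by positivity),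
      Real.log_pow, Real.log_pow, ← hl]
    push_cast
    ring
  have hfin : Real.log δ ≤ Real.log (A * W ^ A * (M : ℝ) ^ 2 * ε) := by
    rw [Real.log_mul (by positivity) hε.ne', Real.log_mul (by positivity) (by positivity),
      Real.log_mul hA0.ne' (by positivity), Real.log_rpow hWpos, Real.log_pow, ← hl]
    push_cast
    have : Real.log δ = -m := by rw [hm, neg_neg]
    rw [this]
    rw [hA1] at hlogA
    linarith only [key, hlog, hlogA, hAl, hqLK, hl0, hlKK, hl48, hL0]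
  exact (Real.log_le_log_iff hδ (by positivity)).mp hfin

end Pool.Agent.Zk29
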