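import Pool.Agent.Zk29.Gen.Dist
import Pool.Agent.T2H09.LU.NV

/-!
# The holomorphic motion of the escaping points over a disc of bounded critical orbits
-/

set_option autoImplicit false
open Set Filter Topology Metric Finset

namespace Pool.Agent.Zk29

open Pool.Agent.W746.LD Pool.Agent.T2H09.DH Pool.Agent.T2H09.LU N62a1eb23

variable {n : ℕ} {c : ℂ}

/-- The speed of an escaping point. -/
noncomputable def VV (n : ℕ) (c y : ℂ) (k : ℕ) : ℂ := -∑ i ∈ range k, (P n c y (i + 1))⁻¹

lemma VV_zero (y : ℂ) : VV n c y 0 = 0 := by simp [VV]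

lemma P_step (y : ℂ) (i : ℕ) : P n c y (i + 1 + 1) = (n * y ^ (n - 1)) * P n c (y ^ n + c) (i + 1) := by
  have h1 : i + 1 + 1 = 1 + (i + 1) := by ring
  rw [h1, P_add, orb_one]
  congr 1
  rw [show (1 : ℕ) = 0 + 1 from rfl, P_succ, P_zero, one_mul, orb_zero]

lemma VV_succ (y : ℂ) (k : ℕ) :
    VV n c y (k + 1) = (n * y ^ (n - 1))⁻¹ * (VV n c (y ^ n + c) k - 1) := by
  unfold VV
  rw [Finset.sum_range_succ']
  have h1 : (P n c y (0 + 1))⁻¹ = (n * y ^ (n - 1))⁻¹ := by
    rw [P_succ, P_zero, one_mul, orb_zero]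
  have h2 : ∀ i ∈ range k, (P n c y (i + 1 + 1))⁻¹ =
      (n * y ^ (n - 1))⁻¹ * (P n c (y ^ n + c) (i + 1))⁻¹ := by
    intro i _
    rw [P_step, mul_inv]
  rw [h1, Finset.sum_congr rfl h2, ← Finset.mul_sum]
  ring

lemma VV_add (y : ℂ) (k l : ℕ) :
    VV n c y (k + l) = VV n c y k + (P n c y k)⁻¹ * VV n c (orb n c y k) l := by
  unfold VV
  rw [Finset.sum_range_add, neg_add]
  congr 1
  rw [mul_neg, Finset.mul_sum]
  congr 1
  refine Finset.sum_congr rfl fun i _ => ?_
  rw [add_assoc, P_add, mul_inv]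

/-- Escaping points move holomorphically. -/
theorem esc_motion (hn : 2 ≤ n) {r : ℝ} (hr : 0 < r)
    (hb : ∀ t ∈ ball c r, ∀ j, ‖orb n t t j‖ < 3) (k : ℕ) :
    ∀ y : ℂ, 3 ≤ ‖orb n c y k‖ →
    ∃ Y : ℂ → ℂ, DifferentiableOn ℂ Y (ball c r) ∧ Y c = y ∧
      (∀ t ∈ ball c r, orb n t (Y t) k = orb n c y k) ∧ HasDerivAt Y (VV n c y k) c := by
  induction k with
  | zero =>
    intro y _
    refine ⟨fun _ => y, differentiableOn_const _, rfl, fun t _ => rfl, ?_⟩
    rw [VV_zero]
    exact hasDerivAt_const _ _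
  | succ k ih =>
    intro y hy
    have hcb : c ∈ ball c r := mem_ball_self hr
    have hn0 : (n : ℂ) ≠ 0 := by exact_mod_cast (by omega : n ≠ 0)
    have e1 : orb n c y (k + 1) = orb n c (y ^ n + c) k := by
      rw [add_comm k 1, orb_add, orb_one]
    rw [e1] at hy
    obtain ⟨Z, hZd, hZc, hZo, hZ'⟩ := ih (y ^ n + c) hy
    have hne : ∀ t ∈ ball c r, Z t - t ≠ 0 := by
      intro t ht h
      have h1 : Z t = t := sub_eq_zero.mp h
      have h2 := hZo t ht
      rw [h1] at h2
      have h3 := hb t ht k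
      rw [h2] at h3
      linarith
    have hy0 : y ≠ 0 := by
      rintro rfl
      apply hne c hcb
      rw [hZc, zero_pow (by omega)]
      ring
    obtain ⟨l, hl1, hl2, hl3⟩ := Pool.Agent.H712R2.M.exists_log_ball hr
      (hZd.sub differentiableOn_id) hne (n * Complex.log y) (by
        rw [Complex.exp_nat_mul, Complex.exp_log hy0, Pi.sub_apply, hZc]
        simp)
    have hYn : ∀ t ∈ ball c r, Complex.exp (l t / n) ^ n + t = Z t := by
      intro t ht
      rw [exp_pow hn, hl3 t ht, Pi.sub_apply]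
      simp
    have hYc : Complex.exp (l c / n) = y := by
      rw [hl2, mul_div_cancel_left₀ _ hn0, Complex.exp_log hy0]
    have hYd : DifferentiableOn ℂ (fun t => Complex.exp (l t / n)) (ball c r) :=
      (hl1.div_const _).cexp
    refine ⟨fun t => Complex.exp (l t / n), hYd, hYc, ?_, ?_⟩
    · intro t ht
      rw [e1, add_comm k 1, orb_add, orb_one]
      simp only
      rw [hYn t ht]
      exact hZo t ht
    · have hY := (hYd.differentiableAt (isOpen_ball.mem_nhds hcb)).hasDerivAt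
      have h1 := (hY.fun_pow n).add (hasDerivAt_id c)
      have h2 : (fun t : ℂ => Complex.exp (l t / n) ^ n) + id =ᶠ[𝓝 c] Z := by
        filter_upwards [isOpen_ball.mem_nhds hcb] with t ht
        exact hYn t ht
      have h3 := h1.unique (hZ'.congr_of_eventuallyEq h2)
      rw [hYc] at h3
      have h4 : (n : ℂ) * y ^ (n - 1) ≠ 0 := mul_ne_zero hn0 (pow_ne_zero _ hy0)
      have h5 : deriv (fun t => Complex.exp (l t / n)) c = VV n c y (k + 1) := by
        rw [VV_succ, ← h3]
        field_simp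
        ring
      rw [← h5]
      exact hY

lemma orb_ge {t z : ℂ} (hn : 2 ≤ n) (ht : ‖t‖ ≤ 3) (hz : 4 ≤ ‖z‖) (k : ℕ) :
    ‖z‖ ≤ ‖orb n t z k‖ := by
  induction k with
  | zero => rw [orb_zero]
  | succ k ih =>
    have h1 : ‖orb n t z k‖ ^ 2 ≤ ‖orb n t z k‖ ^ n := pow_le_pow_right₀ (by linarith) hn
    have h2 : ‖orb n t z k‖ ^ n - ‖t‖ ≤ ‖orb n t z (k + 1)‖ := by
      rw [orb_succ]
      have := norm_sub_le (orb n t z k ^ n + t) t
      rw [add_sub_cancel_right, norm_pow] at this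
      linarith
    nlinarith

lemma orb_gt {t z : ℂ} (hn : 2 ≤ n) (ht : ‖t‖ < 3) (hz : 3 ≤ ‖z‖) (k : ℕ) :
    ‖z‖ < ‖orb n t z (k + 1)‖ := by
  have step : ∀ x : ℂ, 3 ≤ ‖x‖ → ‖x‖ < ‖x ^ n + t‖ := by
    intro x hx
    have h1 : ‖x‖ ^ 2 ≤ ‖x‖ ^ n := pow_le_pow_right₀ (by linarith) hn
    have h2 := norm_sub_le (x ^ n + t) t
    rw [add_sub_cancel_right, norm_pow] at h2
    nlinarith
  induction k with
  | zero =>
    rw [zero_add, orb_one]
    exact step z hz
  | succ k ih =>
    rw [orb_succ]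
    exact ih.trans (step _ (hz.trans ih.le))

/-- The bounds for the speed of an escaping point. -/
theorem speed (hn : 2 ≤ n) {r B : ℝ} (hr : 0 < r) (hB4 : 4 ≤ B)
    (hb : ∀ t ∈ ball c r, ∀ j, ‖orb n t t j‖ < 3) {k : ℕ} {y : ℂ}
    (hy : 3 ≤ ‖orb n c y k‖) (hyB : ‖orb n c y k‖ ≤ B) :
    r * ‖VV n c y k‖ ≤ 2 * B ∧
    (∀ l, r * ‖VV n c y k - TH363.QI.D n c l‖ ≤
      2 * ‖y - orb n c c l‖ * Real.log (2 * B / ‖y - orb n c c l‖)) ∧
    ∀ N, 1 ≤ N → N ≤ k → r * ‖VV n c y k - VV n c (orb n c y N) (k - N)‖ ≤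
      2 * ‖y - orb n c y N‖ * Real.log (2 * B / ‖y - orb n c y N‖) := by
  have hcb : c ∈ ball c r := mem_ball_self hr
  have ht3 : ∀ t ∈ ball c r, ‖t‖ < 3 := fun t ht => by simpa using hb t ht 0
  obtain ⟨Y, hYd, hYc, hYo, hY'⟩ := esc_motion hn hr hb k y hy
  have hYB : ∀ t ∈ ball c r, ‖Y t‖ ≤ B := by
    intro t ht
    by_contra hcon
    push Not at hcon
    have h1 := orb_ge (z := Y t) hn (ht3 t ht).le (by linarith) k
    rw [hYo t ht] at h1
    linarith
  refine ⟨?_, ?_, ?_⟩
  · have h1 := Complex.norm_deriv_le_of_forall_mem_sphere_norm_le (f := Y) (c := c) (C := B)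
      (by positivity : 0 < r / 2) ((hYd.mono (closedBall_subset_ball (by linarith))).diffContOnCl_ball
        subset_rfl) (by
        intro t ht
        apply hYB
        rw [mem_sphere] at ht
        rw [mem_ball]
        linarith)
    rw [hY'.deriv, le_div_iff₀ (by positivity)] at h1
    linarith
  · intro l
    have hd : DifferentiableOn ℂ (fun t => Y t - orb n t t l) (ball c r) :=
      hYd.sub (diff_param (n := n) l).differentiableOn
    have hne : ∀ t ∈ ball c r, Y t - orb n t t l ≠ 0 := by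
      intro t ht h
      have h1 : Y t = orb n t t l := sub_eq_zero.mp h
      have h2 := hYo t ht
      rw [h1, ← orb_add] at h2
      have h3 := hb t ht (l + k)
      rw [h2] at h3
      linarith
    have hbd : ∀ t ∈ ball c r, ‖Y t - orb n t t l‖ ≤ 2 * B := by
      intro t ht
      have h1 := norm_sub_le (Y t) (orb n t t l)
      have h2 := hYB t ht
      have h3 := hb t ht l
      linarith
    have h1 := nv hr hd hne hbd
    have h2 : HasDerivAt (fun t => Y t - orb n t t l) (VV n c y k - TH363.QI.D n c l) c :=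
      hY'.sub (TH363.QI.hasDerivAt_D n c l)
    rw [h2.deriv, hYc] at h1
    exact h1
  · intro N hN hNk
    have e1 : orb n c (orb n c y N) (k - N) = orb n c y k := by
      rw [← orb_add, Nat.add_sub_cancel' hNk]
    obtain ⟨Z, hZd, hZc, hZo, hZ'⟩ := esc_motion hn hr hb (k - N) (orb n c y N) (by rw [e1]; exact hy)
    have hZB : ∀ t ∈ ball c r, ‖Z t‖ ≤ B := by
      intro t ht
      by_contra hcon
      push Not at hcon
      have h1 := orb_ge (z := Z t) hn (ht3 t ht).le (by linarith) (k - N)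
      rw [hZo t ht, e1] at h1
      linarith
    have hd : DifferentiableOn ℂ (fun t => Y t - Z t) (ball c r) := hYd.sub hZd
    have hne : ∀ t ∈ ball c r, Y t - Z t ≠ 0 := by
      intro t ht h
      have h1 : Y t = Z t := sub_eq_zero.mp h
      have h2 := hYo t ht
      have h3 := hZo t ht
      rw [e1, ← h1] at h3
      have h4 : k = (k - N) + N := by omega
      rw [h4, orb_add, h3, ← h4] at h2
      obtain ⟨i, rfl⟩ : ∃ i, N = i + 1 := ⟨N - 1, by omega⟩
      have h5 := orb_gt hn (ht3 t ht) hy i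
      rw [h2] at h5
      exact lt_irrefl _ h5
    have hbd : ∀ t ∈ ball c r, ‖Y t - Z t‖ ≤ 2 * B := by
      intro t ht
      have h1 := norm_sub_le (Y t) (Z t)
      have h2 := hYB t ht
      have h3 := hZB t ht
      linarith
    have h1 := nv hr hd hne hbd
    have h2 : HasDerivAt (fun t => Y t - Z t) (VV n c y k - VV n c (orb n c y N) (k - N)) c :=
      hY'.sub hZ'
    rw [h2.deriv, hYc, hZc] at h1
    exact h1

end Pool.Agent.Zk29
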