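import Pool.Agent.Zk29.Gen.Motion
import Pool.Agent.Zk29.Gen.Crit

/-!
# Repelling periodic points: the speed with respect to the parameter
-/

set_option autoImplicit false
open Set Filter Topology Metric Finset

namespace Pool.Agent.Zk29

open Pool.Agent.W746.LD Pool.Agent.T2H09.DH Pool.Agent.T2H09.LU N62a1eb23

variable {n : ℕ} {c b : ℂ} {N : ℕ}

lemma per_bdd (hn : 2 ≤ n) (hc2 : ‖c‖ ≤ 2) (hN : 1 ≤ N) (hb : orb n c b N = b) (k : ℕ) :
    ‖orb n c b k‖ ≤ 2 := by
  by_contra hcon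
  push Not at hcon
  have step : ∀ x : ℂ, 2 < ‖x‖ → ‖x‖ < ‖x ^ n + c‖ := by
    intro x hx
    have h1 : ‖x‖ ^ 2 ≤ ‖x‖ ^ n := pow_le_pow_right₀ (by linarith) hn
    have h2 := norm_sub_le (x ^ n + c) c
    rw [add_sub_cancel_right, norm_pow] at h2
    nlinarith
  have h1 : ∀ m, ‖orb n c b k‖ < ‖orb n c (orb n c b k) (m + 1)‖ := by
    intro m
    induction m with
    | zero =>
      rw [zero_add, orb_one]
      exact step _ hcon
    | succ m ih =>
      rw [orb_succ]
      exact ih.trans (step _ (hcon.trans ih))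
  obtain ⟨m, rfl⟩ : ∃ m, N = m + 1 := ⟨N - 1, by omega⟩
  have h2 := h1 m
  rw [← orb_add, add_comm k, orb_add, hb] at h2
  exact lt_irrefl _ h2

theorem dx_der (hn : 2 ≤ n) (hc : c ∈ multibrotSet n) (hb : ∀ k, ‖orb n c b k‖ ≤ 2) (k : ℕ) :
    dx n c b k * ‖P n c b k‖ ≤ 3 := by
  have hδ := dx_pos hn hc hb k
  have h1 : ∀ z ∈ closedBall b (dx n c b k), ‖orb n c z k‖ ≤ 3 := by
    rw [← closure_ball b hδ.ne']
    have hcl : IsClosed {z : ℂ | ‖orb n c z k‖ ≤ 3} :=
      isClosed_le (ds_diff n c k).continuous.norm continuous_const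
    have hsub : ball b (dx n c b k) ⊆ {z : ℂ | ‖orb n c z k‖ ≤ 3} := by
      intro z hz
      have h3 : ‖orb n c z k‖ < 3 := ball_subx k hz
      exact h3.le
    intro z hz
    exact closure_minimal hsub hcl hz
  have h2 := Complex.norm_deriv_le_of_forall_mem_sphere_norm_le hδ
    (ds_diff n c k).diffContOnCl (fun z hz => h1 z (sphere_subset_closedBall hz))
  rw [(hasDerivAt_orb b k).deriv, le_div_iff₀ hδ] at h2
  linarith

lemma orb_mul (hb : orb n c b N = b) (m : ℕ) : orb n c b (N * m) = b := by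
  induction m with
  | zero => rw [mul_zero, orb_zero]
  | succ m ih => rw [mul_add, mul_one, orb_add, ih, hb]

lemma P_mul (hb : orb n c b N = b) (m : ℕ) : P n c b (N * m) = P n c b N ^ m := by
  induction m with
  | zero => rw [mul_zero, P_zero, pow_zero]
  | succ m ih => rw [mul_add, mul_one, P_add, ih, orb_mul hb, pow_succ]

lemma UU_anti' (hn : 2 ≤ n) (hc : c ∈ multibrotSet n) {j k : ℕ} (h : j ≤ k) :
    UU n c k ⊆ UU n c j := by
  obtain ⟨i, rfl⟩ := Nat.exists_eq_add_of_le h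
  induction i with
  | zero => exact subset_rfl
  | succ i ih => exact (UU_anti hn hc (j + i)).trans (ih (by omega))

/-- Escaping points near a repelling periodic point. -/
theorem esc_near (hn : 2 ≤ n) (hc : c ∈ multibrotSet n) (hN : 1 ≤ N) (hb : orb n c b N = b)
    (hρ : 1 < ‖P n c b N‖) {s : ℝ} (hs : 0 < s) :
    ∃ (y : ℂ) (k : ℕ), ‖y - b‖ < s ∧ N ≤ k ∧ 3 ≤ ‖orb n c y k‖ ∧ ‖orb n c y k‖ ≤ 3 ^ n + 4 := by
  classical
  have hc2 := norm_le_two hn hc
  have hb2 := per_bdd hn hc2 hN hb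
  have hdN := dx_pos hn hc hb2 N
  obtain ⟨s', hs'⟩ : ∃ s', s' = min s (dx n c b N) := ⟨_, rfl⟩
  have hs'0 : 0 < s' := by rw [hs']; exact lt_min hs hdN
  obtain ⟨m, hm⟩ := pow_unbounded_of_one_lt (3 / s') hρ
  obtain ⟨y, hy1, hy2⟩ := dx_exists (x := b) hn hc (N * m)
  have h1 := dx_der hn hc hb2 (N * m)
  rw [P_mul hb, norm_pow] at h1
  have hy3 : ‖y - b‖ < s' := by
    rw [hy1]
    rw [div_lt_iff₀ hs'0] at hm
    have h2 : 0 < ‖P n c b N‖ ^ m := by positivity
    by_contra hcon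
    push Not at hcon
    have h3 : s' * ‖P n c b N‖ ^ m ≤ dx n c b (N * m) * ‖P n c b N‖ ^ m := by gcongr
    nlinarith
  have hex : ∃ k, 3 ≤ ‖orb n c y k‖ := ⟨_, hy2⟩
  have hk := Nat.find_spec hex
  have hkmin := fun j hj => Nat.find_min hex (m := j) hj
  obtain ⟨k, hkd⟩ : ∃ k, k = Nat.find hex := ⟨_, rfl⟩
  rw [← hkd] at hk hkmin
  have hyN : y ∈ UU n c N := by
    apply ball_subx (x := b)
    rw [mem_ball, dist_eq_norm]
    exact hy3.trans_le (by rw [hs']; exact min_le_right _ _)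
  have hkN : N < k := by
    by_contra hcon
    push Not at hcon
    have h4 : y ∈ UU n c k := UU_anti' hn hc hcon hyN
    have h5 : ‖orb n c y k‖ < 3 := h4
    linarith
  refine ⟨y, k, hy3.trans_le (by rw [hs']; exact min_le_left _ _), hkN.le, hk, ?_⟩
  obtain ⟨k', rfl⟩ : ∃ k', k = k' + 1 := ⟨k - 1, by omega⟩
  have h6 := hkmin k' (by omega)
  push Not at h6
  rw [orb_succ]
  refine (norm_add_le _ _).trans ?_
  rw [norm_pow]
  have h7 : ‖orb n c y k'‖ ^ n ≤ 3 ^ n := pow_le_pow_left₀ (norm_nonneg _) h6.le n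
  linarith

/-- The modulus of continuity of the speed. -/
noncomputable def gm (B s : ℝ) : ℝ := 2 * (s * Real.log (2 * B) - s * Real.log s)

lemma gm_eq {B s : ℝ} (hB : 0 < B) (hs : 0 ≤ s) : 2 * s * Real.log (2 * B / s) = gm B s := by
  unfold gm
  rcases hs.eq_or_lt with h | h
  · rw [← h]; simp
  · rw [Real.log_div (by positivity) h.ne']
    ring

lemma gm_cont (B : ℝ) : Continuous (gm B) := by
  unfold gm
  exact continuous_const.mul ((continuous_id.mul continuous_const).sub Real.continuous_mul_log)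

lemma gm_zero (B : ℝ) : gm B 0 = 0 := by simp [gm]

/-- The speed of a repelling periodic point. -/
theorem per_speed (hn : 2 ≤ n) (hc : c ∈ multibrotSet n) {r : ℝ} (hr : 0 < r)
    (hball : ∀ t ∈ ball c r, ∀ j, ‖orb n t t j‖ < 3) (hN : 1 ≤ N) (hb : orb n c b N = b)
    (hρ : 1 < ‖P n c b N‖) :
    r * ‖VV n c b N‖ ≤ 2 * (3 ^ n + 4) * ‖1 - (P n c b N)⁻¹‖ ∧
    ∀ l, r * ‖VV n c b N - (1 - (P n c b N)⁻¹) * TH363.QI.D n c l‖ ≤
      ‖1 - (P n c b N)⁻¹‖ * gm (3 ^ n + 4) ‖b - orb n c c l‖ := by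
  obtain ⟨B, hB⟩ : ∃ B : ℝ, B = 3 ^ n + 4 := ⟨_, rfl⟩
  rw [← hB]
  have hB4 : 4 ≤ B := by
    rw [hB]
    have : (0 : ℝ) ≤ 3 ^ n := by positivity
    linarith
  have hB0 : 0 < B := by linarith
  have hP0 : P n c b N ≠ 0 := by
    rw [← norm_pos_iff]; linarith
  choose y k hy1 hy2 hy3 hy4 using fun m : ℕ =>
    esc_near hn hc hN hb hρ (s := 1 / ((m : ℝ) + 1)) (by positivity)
  have hyb : Tendsto y atTop (𝓝 b) := by
    rw [tendsto_iff_norm_sub_tendsto_zero]
    exact squeeze_zero (fun m => norm_nonneg _) (fun m => (hy1 m).le)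
      tendsto_one_div_add_atTop_nhds_zero_nat
  have hR : Tendsto (fun m => (P n c (y m) N)⁻¹) atTop (𝓝 (P n c b N)⁻¹) :=
    ((differentiable_P N).continuous.tendsto b |>.comp hyb).inv₀ hP0
  have hy1b : Tendsto (fun m => orb n c (y m) N) atTop (𝓝 b) := by
    have h1 := ((differentiable_orb (n := n) (c := c) N).continuous.tendsto b).comp hyb
    rw [hb] at h1
    exact h1
  have hV : Tendsto (fun m => VV n c (y m) N) atTop (𝓝 (VV n c b N)) := by
    unfold VV
    apply Tendsto.neg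
    apply tendsto_finsetSum
    intro i hi
    rw [Finset.mem_range] at hi
    refine ((differentiable_P (i + 1)).continuous.tendsto b |>.comp hyb).inv₀ ?_
    intro h0
    apply hP0
    have h1 : N = (i + 1) + (N - (i + 1)) := by omega
    rw [h1, P_add, h0, zero_mul]
  have hdy : Tendsto (fun m => gm B ‖y m - orb n c (y m) N‖) atTop (𝓝 0) := by
    have h1 : Tendsto (fun m => ‖y m - orb n c (y m) N‖) atTop (𝓝 ‖b - b‖) :=
      (hyb.sub hy1b).norm
    have h2 := ((gm_cont B).tendsto _).comp h1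
    rw [sub_self, norm_zero, gm_zero] at h2
    exact h2
  have hsp := fun m => speed hn hr hB4 hball (hy3 m) ((hy4 m).trans hB.ge)
  have hVk : ∀ m, VV n c (y m) N = VV n c (y m) (k m) * (1 - (P n c (y m) N)⁻¹) +
      (P n c (y m) N)⁻¹ * (VV n c (y m) (k m) - VV n c (orb n c (y m) N) (k m - N)) := by
    intro m
    have h1 : VV n c (y m) (k m) = VV n c (y m) N +
        (P n c (y m) N)⁻¹ * VV n c (orb n c (y m) N) (k m - N) := by
      rw [← VV_add, Nat.add_sub_cancel' (hy2 m)]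
    linear_combination (-1 : ℂ) * h1
  constructor
  · have h1 : ∀ m, r * ‖VV n c (y m) N‖ ≤ 2 * B * ‖1 - (P n c (y m) N)⁻¹‖ +
        ‖(P n c (y m) N)⁻¹‖ * gm B ‖y m - orb n c (y m) N‖ := by
      intro m
      obtain ⟨s1, -, s3⟩ := hsp m
      have s3' := s3 N hN (hy2 m)
      rw [gm_eq hB0 (norm_nonneg _)] at s3'
      calc r * ‖VV n c (y m) N‖ ≤ r * (‖VV n c (y m) (k m)‖ * ‖1 - (P n c (y m) N)⁻¹‖ +
            ‖(P n c (y m) N)⁻¹‖ *
              ‖VV n c (y m) (k m) - VV n c (orb n c (y m) N) (k m - N)‖) := by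
            rw [hVk m]
            gcongr
            refine (norm_add_le _ _).trans (le_of_eq ?_)
            rw [norm_mul, norm_mul]
        _ = (r * ‖VV n c (y m) (k m)‖) * ‖1 - (P n c (y m) N)⁻¹‖ +
            ‖(P n c (y m) N)⁻¹‖ *
              (r * ‖VV n c (y m) (k m) - VV n c (orb n c (y m) N) (k m - N)‖) := by ring
        _ ≤ _ := by gcongr
    refine le_of_tendsto_of_tendsto' (hV.norm.const_mul r) ?_ h1
    have h2 := ((tendsto_const_nhds (x := (1 : ℂ)).sub hR).norm.const_mul (2 * B)).add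
      (hR.norm.mul hdy)
    rw [mul_zero, add_zero] at h2
    exact h2
  · intro l
    have h1 : ∀ m, r * ‖VV n c (y m) N - (1 - (P n c (y m) N)⁻¹) * TH363.QI.D n c l‖ ≤
        ‖1 - (P n c (y m) N)⁻¹‖ * gm B ‖y m - orb n c c l‖ +
        ‖(P n c (y m) N)⁻¹‖ * gm B ‖y m - orb n c (y m) N‖ := by
      intro m
      obtain ⟨-, s2, s3⟩ := hsp m
      have s2' := s2 l
      have s3' := s3 N hN (hy2 m)
      rw [gm_eq hB0 (norm_nonneg _)] at s2' s3'
      have e : VV n c (y m) N - (1 - (P n c (y m) N)⁻¹) * TH363.QI.D n c l =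
          (1 - (P n c (y m) N)⁻¹) * (VV n c (y m) (k m) - TH363.QI.D n c l) +
          (P n c (y m) N)⁻¹ *
            (VV n c (y m) (k m) - VV n c (orb n c (y m) N) (k m - N)) := by
        rw [hVk m]
        ring
      calc r * ‖VV n c (y m) N - (1 - (P n c (y m) N)⁻¹) * TH363.QI.D n c l‖
          ≤ r * (‖1 - (P n c (y m) N)⁻¹‖ * ‖VV n c (y m) (k m) - TH363.QI.D n c l‖ +
            ‖(P n c (y m) N)⁻¹‖ *
              ‖VV n c (y m) (k m) - VV n c (orb n c (y m) N) (k m - N)‖) := by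
            rw [e]
            gcongr
            refine (norm_add_le _ _).trans (le_of_eq ?_)
            rw [norm_mul, norm_mul]
        _ = ‖1 - (P n c (y m) N)⁻¹‖ * (r * ‖VV n c (y m) (k m) - TH363.QI.D n c l‖) +
            ‖(P n c (y m) N)⁻¹‖ *
              (r * ‖VV n c (y m) (k m) - VV n c (orb n c (y m) N) (k m - N)‖) := by ring
        _ ≤ _ := by gcongr
    have hL : Tendsto (fun m => r * ‖VV n c (y m) N - (1 - (P n c (y m) N)⁻¹) *
        TH363.QI.D n c l‖) atTop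
        (𝓝 (r * ‖VV n c b N - (1 - (P n c b N)⁻¹) * TH363.QI.D n c l‖)) :=
      (hV.sub ((tendsto_const_nhds.sub hR).mul_const _)).norm.const_mul r
    have h3 : Tendsto (fun m => gm B ‖y m - orb n c c l‖) atTop
        (𝓝 (gm B ‖b - orb n c c l‖)) :=
      ((gm_cont B).tendsto _).comp ((hyb.sub_const _).norm)
    have h2 := ((tendsto_const_nhds (x := (1 : ℂ)).sub hR).norm.mul h3).add
      (hR.norm.mul hdy)
    rw [mul_zero, add_zero] at h2
    exact le_of_tendsto_of_tendsto' hL h2 h1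

end Pool.Agent.Zk29
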