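import Pool.Agent.Zk29.Gen.Per

/-!
# Repelling cycles near the critical value or with multiplier near `1`
-/

set_option autoImplicit false
open Set Filter Topology Metric MeasureTheory Finset
open scoped ENNReal

namespace Pool.Agent.Zk29

open Pool.Agent.W746.LD Pool.Agent.T2H09.DH Pool.Agent.T2H09.LU N62a1eb23

variable {n : ℕ} {c b : ℂ} {N : ℕ}

/-- The error term along a cycle. -/
lemma Er_per (hb : orb n c b N = b) (w : ℂ) :
    Er n c N (fun j => orb n c b j) (fun j => (P n c b j)⁻¹) w =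
      (1 - (P n c b N)⁻¹) * (1 / (w - c) - 1 / (w - b)) +
        (VV n c b N - (1 - (P n c b N)⁻¹)) / (w - c) := by
  have h4 : ∑ j ∈ range N, (P n c b (j + 1))⁻¹ / (w - orb n c b (j + 1)) =
      QQ N (fun j => orb n c b j) (fun j => (P n c b j)⁻¹) w +
        (P n c b N)⁻¹ / (w - b) - 1 / (w - b) := by
    have h5 := Finset.sum_range_succ' (fun j => (P n c b j)⁻¹ / (w - orb n c b j)) N
    have h6 := Finset.sum_range_succ (fun j => (P n c b j)⁻¹ / (w - orb n c b j)) N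
    rw [h5, P_zero, inv_one, orb_zero, hb] at h6
    unfold QQ
    rw [← h6]
    ring
  have h7 : ∑ j ∈ range N, (P n c b (j + 1))⁻¹ / (w - c) = -VV n c b N / (w - c) := by
    rw [← Finset.sum_div]
    unfold VV
    rw [neg_neg]
  unfold Er
  have h8 : ∀ j ∈ range N, (P n c b j)⁻¹ * ((n * orb n c b j ^ (n - 1))⁻¹ *
      (1 / (w - (orb n c b j ^ n + c)) - 1 / (w - c))) =
      (P n c b (j + 1))⁻¹ / (w - orb n c b (j + 1)) - (P n c b (j + 1))⁻¹ / (w - c) := by
    intro j _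
    rw [P_succ, mul_inv, orb_succ]
    ring
  rw [Finset.sum_congr rfl h8, Finset.sum_sub_distrib, h4, h7]
  ring

/-- The mass of a combination of two poles. -/
lemma two_mass {x z u v : ℂ} (hx : ‖x‖ ≤ 2) (hz : ‖z‖ ≤ 2) (hxz : x ≠ z) :
    ∫⁻ w in closedBall (0 : ℂ) 3, ‖u * (1 / (w - x) - 1 / (w - z)) + v / (w - x)‖ₑ ≤
      ENNReal.ofReal (‖u‖ * (2 * Real.pi * (‖x - z‖ * (2 + Real.log (12 / ‖x - z‖)))) +
        2 * Real.pi * 6 * ‖v‖) := by
  have hρ : 0 < ‖x - z‖ := norm_pos_iff.mpr (sub_ne_zero.mpr hxz)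
  have hρ4 : ‖x - z‖ ≤ 4 := (norm_sub_le _ _).trans (by linarith)
  have hlog : 0 ≤ Real.log (12 / ‖x - z‖) := by
    apply Real.log_nonneg
    rw [le_div_iff₀ hρ]
    linarith
  calc ∫⁻ w in closedBall (0 : ℂ) 3, ‖u * (1 / (w - x) - 1 / (w - z)) + v / (w - x)‖ₑ
      ≤ ∫⁻ w in closedBall (0 : ℂ) 3,
          (‖u‖ₑ * ‖1 / (w - x) - 1 / (w - z)‖ₑ + ‖v / (w - x)‖ₑ) := by
        apply lintegral_mono
        intro w
        simp only
        rw [← enorm_mul]
        exact enorm_add_le _ _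
    _ = (∫⁻ w in closedBall (0 : ℂ) 3, ‖u‖ₑ * ‖1 / (w - x) - 1 / (w - z)‖ₑ) +
        ∫⁻ w in closedBall (0 : ℂ) 3, ‖v / (w - x)‖ₑ := by
        apply lintegral_add_right
        exact (measurable_const.div (measurable_id.sub_const _)).enorm
    _ = ‖u‖ₑ * (∫⁻ w in closedBall (0 : ℂ) 3, ‖1 / (w - x) - 1 / (w - z)‖ₑ) +
        ∫⁻ w in closedBall (0 : ℂ) 3, ‖v / (w - x)‖ₑ := by
        rw [lintegral_const_mul' _ _ enorm_ne_top]
    _ ≤ ‖u‖ₑ * ENNReal.ofReal (2 * Real.pi * (‖x - z‖ * (2 + Real.log (12 / ‖x - z‖)))) +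
        ENNReal.ofReal (2 * Real.pi * 6 * ‖v‖) := by
        gcongr
        · exact two_poles hx hz hxz
        · exact int_term_le _ _ (by linarith)
    _ = _ := by
        rw [← ofReal_norm, ← ENNReal.ofReal_mul (norm_nonneg _),
          ← ENNReal.ofReal_add (by positivity) (by positivity)]

/-- The mass of a combination of two poles, crude form. -/
lemma two_mass' {x z u v : ℂ} (hx : ‖x‖ ≤ 2) (hz : ‖z‖ ≤ 2) :
    ∫⁻ w in closedBall (0 : ℂ) 3, ‖u / (w - x) + v / (w - z)‖ₑ ≤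
      ENNReal.ofReal (2 * Real.pi * 6 * (‖u‖ + ‖v‖)) := by
  calc ∫⁻ w in closedBall (0 : ℂ) 3, ‖u / (w - x) + v / (w - z)‖ₑ
      ≤ ∫⁻ w in closedBall (0 : ℂ) 3, (‖u / (w - x)‖ₑ + ‖v / (w - z)‖ₑ) :=
        lintegral_mono fun w => enorm_add_le _ _
    _ = (∫⁻ w in closedBall (0 : ℂ) 3, ‖u / (w - x)‖ₑ) +
        ∫⁻ w in closedBall (0 : ℂ) 3, ‖v / (w - z)‖ₑ := by
        apply lintegral_add_left
        exact (measurable_const.div (measurable_id.sub_const _)).enorm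
    _ ≤ ENNReal.ofReal (2 * Real.pi * 6 * ‖u‖) + ENNReal.ofReal (2 * Real.pi * 6 * ‖v‖) :=
        add_le_add (int_term_le _ _ (by linarith)) (int_term_le _ _ (by linarith))
    _ = _ := by
        rw [← ENNReal.ofReal_add (by positivity) (by positivity)]
        congr 1
        ring

/-- Numerical comparison of the two moduli. -/
lemma gm_le {B s : ℝ} (hB : 1 ≤ B) (hs : 0 ≤ s) (hs4 : s ≤ 4) :
    gm B s ≤ 2 * (1 + Real.log (2 * B) / 3) * (s * (5 - Real.log s)) := by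
  have hlog4 : Real.log 4 ≤ 2 := by
    rw [show (4 : ℝ) = 2 ^ 2 by norm_num, Real.log_pow]
    have := Real.log_le_sub_one_of_pos (show (0 : ℝ) < 2 by norm_num)
    push_cast
    linarith
  have hlB : 0 ≤ Real.log (2 * B) := Real.log_nonneg (by linarith)
  rcases hs.eq_or_lt with h | h
  · rw [← h, gm_zero]; simp
  · have h5 : Real.log s ≤ 2 := (Real.log_le_log h hs4).trans hlog4
    unfold gm
    have h6 : Real.log (2 * B) - Real.log s ≤ (1 + Real.log (2 * B) / 3) * (5 - Real.log s) := by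
      have h7 : Real.log (2 * B) / 3 * 3 ≤ Real.log (2 * B) / 3 * (5 - Real.log s) := by
        gcongr
        linarith
      nlinarith
    calc 2 * (s * Real.log (2 * B) - s * Real.log s) = 2 * s * (Real.log (2 * B) - Real.log s) := by
          ring
      _ ≤ 2 * s * ((1 + Real.log (2 * B) / 3) * (5 - Real.log s)) := by gcongr
      _ = _ := by ring

lemma log12 {s : ℝ} (hs : 0 < s) : 2 + Real.log (12 / s) ≤ 5 - Real.log s := by
  have h1 : Real.log (12 / s) = Real.log 12 - Real.log s := Real.log_div (by norm_num) hs.ne'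
  have hlog12 : Real.log 12 ≤ 3 := by
    rw [Real.log_le_iff_le_exp (by norm_num)]
    have := Real.exp_one_gt_d9
    calc (12 : ℝ) ≤ 2.7182818283 ^ 3 := by norm_num
      _ ≤ Real.exp 1 ^ 3 := by gcongr
      _ = Real.exp 3 := by rw [← Real.exp_nat_mul]; norm_num
  linarith

/-- The disc of parameters without attracting cycles. -/
lemma ball_orb (hn : 2 ≤ n) (hc : c ∈ multibrotSet n) (h : 0 < infDist c (Hy n)) :
    ∀ t ∈ ball c (infDist c (Hy n)), ∀ j, ‖orb n t t j‖ < 3 := by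
  have hno : ∀ c' ∈ ball c (infDist c (Hy n)),
      ¬ ∃ m z, IsAttractingCycle (fun z => z ^ n + c') m z := by
    intro c' hc' hcon
    have h1 : infDist c (Hy n) ≤ dist c c' := infDist_le_dist_of_mem hcon
    rw [mem_ball, dist_comm] at hc'
    linarith
  have hsub := Pool.Agent.H713R2.AR.ball_subset hn h hc hno
  intro t ht j
  have := mem_multibrot_orb hn (hsub ht) j
  linarith

/-- **Repelling cycles.** -/
theorem closing_per (hn : 2 ≤ n) : ∃ A : ℝ, 1 ≤ A ∧ ∀ c ∈ multibrotSet n, ∀ N M : ℕ, 1 ≤ N →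
    1 ≤ M → ∀ b : ℂ, orb n c b N = b → 1 < ‖P n c b N‖ →
    ∀ y : ℂ, 3 ≤ ‖orb n c y M‖ → ∀ δ : ℝ, 0 < δ → δ ≤ 1 →
    (∀ j, 1 ≤ j → j < N → δ ≤ ‖orb n c b j - b‖) →
    ∀ W : ℝ, W = 1 + Real.log (∑ j ∈ range N, ‖P n c b j‖⁻¹) →
    A * W ^ A * ‖y - b‖ ≤ δ →
    infDist c (Hy n) * δ ≤ A * W ^ A * (M : ℝ) ^ 2 * (‖1 - (P n c b N)⁻¹‖ *
        min 1 (‖b - c‖ * (5 - Real.log ‖b - c‖))) := by
  obtain ⟨A0, hA01, hA0⟩ := mass_ge hn
  obtain ⟨B, hB⟩ : ∃ B : ℝ, B = 3 ^ n + 4 := ⟨_, rfl⟩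
  have hB1 : 1 ≤ B := by
    rw [hB]
    have : (0 : ℝ) ≤ 3 ^ n := by positivity
    linarith
  have hlB : 0 ≤ Real.log (2 * B) := Real.log_nonneg (by linarith)
  obtain ⟨K1, hK1⟩ : ∃ K1, K1 = 1 + Real.log (2 * B) / 3 := ⟨_, rfl⟩
  have hK10 : 1 ≤ K1 := by
    rw [hK1]
    have : 0 ≤ Real.log (2 * B) / 3 := by positivity
    linarith
  have hπ := Real.pi_pos
  have hπ3 := Real.pi_gt_three
  obtain ⟨E, hE⟩ : ∃ E, E = 24 * Real.pi * (1 + B + K1) := ⟨_, rfl⟩
  have hE1 : 1 ≤ E := by rw [hE]; nlinarith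
  have hE0 : 0 < E := by linarith
  refine ⟨E * A0, by nlinarith, ?_⟩
  intro c hc N M hN hM b hb hρ y hy δ hδ hδ1 hdeep W hW hyb
  obtain ⟨A, hA⟩ : ∃ A, A = E * A0 := ⟨_, rfl⟩
  rw [← hA] at hyb ⊢
  have hAA0 : A0 ≤ A := by rw [hA]; nlinarith
  have hA1 : 1 ≤ A := by linarith
  have hc2 := norm_le_two hn hc
  have hb2 := per_bdd hn hc2 hN hb
  have hb20 : ‖b‖ ≤ 2 := by simpa using hb2 0
  have hP0 : P n c b N ≠ 0 := by
    rw [← norm_pos_iff]; linarith
  have h0 : ∀ j < N, orb n c b j ≠ 0 := fun j hj => orb_ne_zero_of_P hn hP0 hj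
  have hΛ1 : 1 ≤ ∑ j ∈ range N, ‖P n c b j‖⁻¹ := by
    calc (1 : ℝ) = ‖P n c b 0‖⁻¹ := by rw [P_zero, norm_one, inv_one]
      _ ≤ _ := Finset.single_le_sum (f := fun j => ‖P n c b j‖⁻¹)
        (fun j _ => by positivity) (Finset.mem_range.mpr (by omega))
  have hW1 : 1 ≤ W := by
    rw [hW]
    have := Real.log_nonneg hΛ1
    linarith
  have hWA0 : 1 ≤ W ^ A := Real.one_le_rpow hW1 (by linarith)
  -- the periodic point is not the critical value
  have hbc : b ≠ c := by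
    rintro rfl
    obtain ⟨i, rfl⟩ : ∃ i, N = i + 1 := ⟨N - 1, by omega⟩
    have h1 := norm_orb_succ_sub (n := n) (c := b) b i
    rw [hb, sub_self, norm_zero] at h1
    have h2 : orb n b b i = 0 := by
      have := pow_eq_zero_iff (by omega : n ≠ 0) |>.mp h1.symm
      exact norm_eq_zero.mp this
    exact h0 i (by omega) h2
  obtain ⟨s, hs⟩ : ∃ s, s = ‖b - c‖ := ⟨_, rfl⟩
  have hs0 : 0 < s := by rw [hs]; exact norm_pos_iff.mpr (sub_ne_zero.mpr hbc)
  have hs4 : s ≤ 4 := by rw [hs]; exact (norm_sub_le _ _).trans (by linarith)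
  have hlog4 : Real.log 4 ≤ 2 := by
    rw [show (4 : ℝ) = 2 ^ 2 by norm_num, Real.log_pow]
    have := Real.log_le_sub_one_of_pos (show (0 : ℝ) < 2 by norm_num)
    push_cast
    linarith
  have hlogs : Real.log s ≤ 2 := (Real.log_le_log hs0 hs4).trans hlog4
  rw [← hs]
  have hmin : 0 < min 1 (s * (5 - Real.log s)) := lt_min one_pos (mul_pos hs0 (by linarith))
  rcases (infDist_nonneg (x := c) (s := Hy n)).eq_or_lt with hr0 | hr0
  · rw [← hr0, zero_mul]
    positivity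
  obtain ⟨r, hr⟩ : ∃ r, r = infDist c (Hy n) := ⟨_, rfl⟩
  have hball := ball_orb hn hc hr0
  rw [← hr] at hr0 hball ⊢
  have hr2 : r ≤ 2 := by rw [hr]; exact infDist_le_two hn hc
  obtain ⟨sp1, sp2⟩ := per_speed hn hc hr0 hball hN hb hρ
  rw [← hB] at sp1 sp2
  have sp3 := sp2 0
  rw [orb_zero, show TH363.QI.D n c 0 = 1 from rfl, mul_one, ← hs] at sp3
  obtain ⟨F, hF⟩ : ∃ F, F = VV n c b N := ⟨_, rfl⟩
  obtain ⟨u, hu⟩ : ∃ u, u = 1 - (P n c b N)⁻¹ := ⟨_, rfl⟩
  rw [← hF, ← hu] at sp1 sp3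
  have hu0 : 0 < ‖u‖ := by
    rw [norm_pos_iff, hu, sub_ne_zero]
    intro h1
    have h2 : ‖(P n c b N)⁻¹‖ = 1 := by rw [← h1, norm_one]
    rw [norm_inv, inv_eq_one] at h2
    linarith
  rw [← hu]
  obtain ⟨ε, hε⟩ : ∃ ε, ε = E / r * ‖u‖ * min 1 (s * (5 - Real.log s)) := ⟨_, rfl⟩
  have hε0 : 0 < ε := by rw [hε]; positivity
  have hmass : ∫⁻ w in closedBall (0 : ℂ) 3, ‖Er n c N (fun j => orb n c b j)
      (fun j => (P n c b j)⁻¹) w‖ₑ ≤ ENNReal.ofReal ε := by
    rw [hε]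
    rcases min_choice 1 (s * (5 - Real.log s)) with hm | hm <;> rw [hm]
    · have h1 := two_mass' (x := c) (z := b) (u := F) (v := -u) hc2 hb20
      refine le_trans (le_of_eq (lintegral_congr fun w => ?_)) (h1.trans
        (ENNReal.ofReal_le_ofReal ?_))
      · rw [Er_per hb, ← hF, ← hu]
        congr 1
        ring
      · have h2 : ‖F‖ ≤ 2 * B / r * ‖u‖ := by
          rw [div_mul_eq_mul_div, le_div_iff₀ hr0]
          linarith
        have h3 : 1 ≤ 2 / r := by rw [le_div_iff₀ hr0]; linarith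
        have h6 : ‖u‖ ≤ 2 / r * ‖u‖ := le_mul_of_one_le_left hu0.le h3
        rw [norm_neg, hE]
        calc 2 * Real.pi * 6 * (‖F‖ + ‖u‖) ≤ 2 * Real.pi * 6 * (2 * B / r * ‖u‖ + 2 / r * ‖u‖) := by
              gcongr
          _ = 24 * Real.pi * (1 + B) / r * ‖u‖ * 1 := by ring
          _ ≤ 24 * Real.pi * (1 + B + K1) / r * ‖u‖ * 1 := by
              apply mul_le_mul_of_nonneg_right _ zero_le_one
              apply mul_le_mul_of_nonneg_right _ hu0.le
              apply div_le_div_of_nonneg_right _ hr0.le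
              nlinarith
    · have h1 := two_mass (x := c) (z := b) (u := u) (v := F - u) hc2 hb20 hbc.symm
      refine le_trans (le_of_eq (lintegral_congr fun w => ?_)) (h1.trans
        (ENNReal.ofReal_le_ofReal ?_))
      · rw [Er_per hb, ← hF, ← hu]
      · rw [norm_sub_rev c b, ← hs]
        have h2 : ‖F - u‖ ≤ ‖u‖ * (2 * K1 * (s * (5 - Real.log s))) / r := by
          rw [le_div_iff₀ hr0]
          calc ‖F - u‖ * r = r * ‖F - u‖ := mul_comm _ _
            _ ≤ ‖u‖ * gm B s := sp3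
            _ ≤ _ := by
                rw [hK1]
                gcongr
                exact gm_le hB1 hs0.le hs4
        have h3 := log12 hs0
        have h4 : 1 ≤ 2 / r := by rw [le_div_iff₀ hr0]; linarith
        have h5 : 0 ≤ s * (5 - Real.log s) := mul_nonneg hs0.le (by linarith)
        rw [hE]
        calc ‖u‖ * (2 * Real.pi * (s * (2 + Real.log (12 / s)))) + 2 * Real.pi * 6 * ‖F - u‖
            ≤ ‖u‖ * (2 * Real.pi * (s * (5 - Real.log s))) +
              2 * Real.pi * 6 * (‖u‖ * (2 * K1 * (s * (5 - Real.log s))) / r) := by gcongr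
          _ = 2 * Real.pi * 1 * (‖u‖ * (s * (5 - Real.log s))) +
              24 * Real.pi * K1 / r * (‖u‖ * (s * (5 - Real.log s))) := by ring
          _ ≤ 2 * Real.pi * (2 / r) * (‖u‖ * (s * (5 - Real.log s))) +
              24 * Real.pi * K1 / r * (‖u‖ * (s * (5 - Real.log s))) := by gcongr
          _ = Real.pi * (4 + 24 * K1) / r * (‖u‖ * (s * (5 - Real.log s))) := by ring
          _ ≤ Real.pi * (24 * (1 + B + K1)) / r * (‖u‖ * (s * (5 - Real.log s))) := by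
              gcongr
              linarith
          _ = _ := by ring
  obtain ⟨N', rfl⟩ : ∃ N', N = N' + 1 := ⟨N - 1, by omega⟩
  have h1 := hA0 c hc N' (fun j => orb n c b j) (fun j => (P n c b j)⁻¹) h0
    (fun j _ k => by
      rw [← orb_add]
      exact hb2 _) (by simp) W hW1 (by
      have h2 : 1 + ∑ j ∈ range N', ‖(P n c b (j + 1))⁻¹‖ =
          ∑ j ∈ range (N' + 1), ‖P n c b j‖⁻¹ := by
        rw [Finset.sum_range_succ', P_zero, norm_one, inv_one, add_comm]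
        simp only [norm_inv]
      rw [h2, hW, Real.exp_add, Real.exp_log (by linarith)]
      have := Real.one_le_exp (show (0 : ℝ) ≤ 1 by norm_num)
      nlinarith) ε hε0 hmass δ hδ hδ1 (fun j hj => by
      simp only [orb_zero]
      exact hdeep (j + 1) (by omega) (by omega)) M hM (by
      simp only [orb_zero]
      refine le_trans ?_ hyb
      have h3 : W ^ A0 ≤ W ^ A := Real.rpow_le_rpow_of_exponent_le hW1 hAA0
      have h4 := dx_le (x := b) hy
      have h5 := (dx_pos hn hc hb2 M).le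
      gcongr)
  have h3 : W ^ A0 ≤ W ^ A := Real.rpow_le_rpow_of_exponent_le hW1 hAA0
  calc r * δ ≤ r * (A0 * W ^ A0 * (M : ℝ) ^ 2 * ε) := by gcongr
    _ = E * A0 * W ^ A0 * (M : ℝ) ^ 2 * (‖u‖ * min 1 (s * (5 - Real.log s))) := by
        rw [hε]
        field_simp
    _ ≤ E * A0 * W ^ A * (M : ℝ) ^ 2 * (‖u‖ * min 1 (s * (5 - Real.log s))) := by gcongr
    _ = _ := by rw [hA]

end Pool.Agent.Zk29
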